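import Pool.Agent.Helper360.Dist.Base

set_option maxHeartbeats 4000000

open scoped InnerProductSpace Topology ComplexConjugate
open MeasureTheory

namespace DC

variable {H : Type*} [NormedAddCommGroup H] [InnerProductSpace ℂ H] [CompleteSpace H]

/- ================= TARGET ================= -/
theorem gs8119_norm_le (P : H →L[ℂ] H) (hP : IsStarProjection P) (v : H) : ‖P v‖ ≤ ‖v‖ := by
  have h1 : P (P v) = P v := by
    have := hP.isIdempotentElem
    have h2 : (P * P) v = P v := by rw [this]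
    exact h2
  have h3 : ⟪P v, P v⟫_ℂ = ⟪v, P v⟫_ℂ := by
    have h4 := ContinuousLinearMap.isSelfAdjoint_iff_isSymmetric.1 hP.isSelfAdjoint
    have h5 : ⟪P v, P v⟫_ℂ = ⟪v, P (P v)⟫_ℂ := h4 v (P v)
    rw [h5, h1]
  have h6 : ‖P v‖ * ‖P v‖ ≤ ‖v‖ * ‖P v‖ := by
    have h7 : ‖⟪P v, P v⟫_ℂ‖ = ‖P v‖ * ‖P v‖ := by
      rw [inner_self_eq_norm_sq_to_K]
      rw [norm_pow, RCLike.norm_ofReal, abs_of_nonneg (norm_nonneg _), sq]
    rw [← h7, h3]
    exact norm_inner_le_norm _ _
  by_cases h0 : ‖P v‖ = 0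
  · rw [h0]; exact norm_nonneg _
  · exact le_of_mul_le_mul_right h6 (lt_of_le_of_ne (norm_nonneg _) (Ne.symm h0))

theorem gs8119_seq (M : Set (H →L[ℂ] H)) (T : H →L[ℂ] H)
    (hT : ∀ (s : Finset H) (ε : ℝ), 0 < ε → ∃ P ∈ M, ∀ x ∈ s, ‖T x - P x‖ < ε) (s : Finset H) :
    ∃ P : ℕ → (H →L[ℂ] H), (∀ n, P n ∈ M) ∧
      ∀ x ∈ s, Filter.Tendsto (fun n => P n x) Filter.atTop (𝓝 (T x)) := by
  have h1 : ∀ n : ℕ, ∃ P ∈ M, ∀ x ∈ s, ‖T x - P x‖ < 1 / ((n : ℝ) + 1) := fun n =>
    hT s _ (by positivity)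
  choose P hP1 hP2 using h1
  refine ⟨P, hP1, fun x hx => ?_⟩
  rw [tendsto_iff_norm_sub_tendsto_zero]
  refine squeeze_zero (fun n => norm_nonneg _) (fun n => ?_)
    tendsto_one_div_add_atTop_nhds_zero_nat
  rw [norm_sub_rev]
  exact (hP2 n x hx).le

theorem gs8119_comm {E : ℝ → (H →L[ℂ] H)} (hp : ∀ t, IsStarProjection (E t))
    (hm : ∀ s t, s ≤ t → E s * E t = E s) (s t : ℝ) : E s * E t = E t * E s := by
  have key : ∀ s t, s ≤ t → E s * E t = E t * E s := by
    intro s t hst
    have h1 := hm s t hst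
    have h2 := congrArg star h1
    rw [star_mul, (hp s).isSelfAdjoint.star_eq, (hp t).isSelfAdjoint.star_eq] at h2
    rw [h1, h2]
  rcases le_total s t with h | h
  · exact key s t h
  · exact (key t s h).symm

/-- the big commutative subspace lattice -/
def gs8119_M (E F : ℝ → (H →L[ℂ] H)) : Set (H →L[ℂ] H) :=
  {P | IsStarProjection P ∧
    (∀ S : H →L[ℂ] H, (∀ t, S * E t = E t * S) → (∀ t, S * F t = F t * S) → S * P = P * S) ∧
    ∀ s t : ℝ, 0 ≤ s → s ≤ 1 → 0 ≤ t → t ≤ 1 →
      P * ((1 - E s) * (1 - F t)) = 0 ∨ P * (E s * F t) = E s * F t}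

theorem gs8119_csl {E F : ℝ → (H →L[ℂ] H)} (h : TwoNests E F) : IsCSL (gs8119_M E F) := by
  have hEE := gs8119_comm h.projE h.monoE
  have hFF := gs8119_comm h.projF h.monoF
  have hE : ∀ P ∈ gs8119_M E F, ∀ t, P * E t = E t * P := fun P hP t =>
    (hP.2.1 (E t) (fun t' => hEE t t') (fun t' => h.comm t t')).symm
  have hF : ∀ P ∈ gs8119_M E F, ∀ t, P * F t = F t * P := fun P hP t =>
    (hP.2.1 (F t) (fun t' => (h.comm t' t).symm) (fun t' => hFF t t')).symm
  have hcomm : ∀ P ∈ gs8119_M E F, ∀ Q ∈ gs8119_M E F, P * Q = Q * P := fun P hP Q hQ =>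
    (hP.2.1 Q (hE Q hQ) (hF Q hQ)).symm
  refine ⟨fun P hP => hP.1, hcomm, ?_, ?_, ?_, ?_, ?_⟩
  · exact ⟨IsStarProjection.zero _, fun S _ _ => by rw [mul_zero, zero_mul],
      fun s t _ _ _ _ => Or.inl (zero_mul _)⟩
  · exact ⟨IsStarProjection.one _, fun S _ _ => by rw [mul_one, one_mul],
      fun s t _ _ _ _ => Or.inr (one_mul _)⟩
  · intro P hP Q hQ
    have hc := hcomm P hP Q hQ
    refine ⟨hP.1.mul hQ.1 hc, fun S h1 h2 => ?_, fun s t hs0 hs1 ht0 ht1 => ?_⟩
    · rw [← mul_assoc, hP.2.1 S h1 h2, mul_assoc, hQ.2.1 S h1 h2, mul_assoc]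
    · rcases hP.2.2 s t hs0 hs1 ht0 ht1 with h1 | h1
      · left
        rw [hc, mul_assoc, h1, mul_zero]
      · rcases hQ.2.2 s t hs0 hs1 ht0 ht1 with h2 | h2
        · left
          rw [mul_assoc, h2, mul_zero]
        · right
          rw [mul_assoc, h2, h1]
  · intro P hP Q hQ
    have hc := hcomm P hP Q hQ
    refine ⟨IsStarProjection.add_sub_mul_of_commute hc hP.1 hQ.1, fun S h1 h2 => ?_,
      fun s t hs0 hs1 ht0 ht1 => ?_⟩
    · rw [mul_sub, mul_add, sub_mul, add_mul, hP.2.1 S h1 h2, hQ.2.1 S h1 h2, ← mul_assoc,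
        hP.2.1 S h1 h2, mul_assoc, hQ.2.1 S h1 h2, mul_assoc]
    · rcases hP.2.2 s t hs0 hs1 ht0 ht1 with h1 | h1
      · rcases hQ.2.2 s t hs0 hs1 ht0 ht1 with h2 | h2
        · left
          rw [sub_mul, add_mul, mul_assoc P Q, h1, h2, mul_zero, add_zero, sub_zero]
        · right
          rw [sub_mul, add_mul, mul_assoc P Q, h2, add_sub_cancel_left]
      · right
        rw [sub_mul, add_mul, hc, mul_assoc Q P, h1, add_sub_cancel_right]
  · intro T hT
    have hTsa : ∀ x y, ⟪T x, y⟫_ℂ = ⟪x, T y⟫_ℂ := by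
      intro x y
      classical
      obtain ⟨P, hP1, hP2⟩ := gs8119_seq _ T hT {x, y}
      have h1 := hP2 x (by simp)
      have h2 := hP2 y (by simp)
      have h3 : Filter.Tendsto (fun n => ⟪P n x, y⟫_ℂ) Filter.atTop (𝓝 ⟪T x, y⟫_ℂ) :=
        h1.inner tendsto_const_nhds
      have h4 : Filter.Tendsto (fun n => ⟪x, P n y⟫_ℂ) Filter.atTop (𝓝 ⟪x, T y⟫_ℂ) :=
        tendsto_const_nhds.inner h2
      have h5 : (fun n => ⟪P n x, y⟫_ℂ) = fun n => ⟪x, P n y⟫_ℂ := by
        funext n
        exact ContinuousLinearMap.isSelfAdjoint_iff_isSymmetric.1 (hP1 n).1.isSelfAdjoint x y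
      rw [h5] at h3
      exact tendsto_nhds_unique h3 h4
    have hTid : ∀ x, T (T x) = T x := by
      intro x
      classical
      obtain ⟨P, hP1, hP2⟩ := gs8119_seq _ T hT {x, T x}
      have h1 := hP2 x (by simp)
      have h2 := hP2 (T x) (by simp)
      have h3 : Filter.Tendsto (fun n => P n (T x) - P n x) Filter.atTop (𝓝 0) := by
        rw [tendsto_zero_iff_norm_tendsto_zero]
        have h4 : Filter.Tendsto (fun n => ‖T x - P n x‖) Filter.atTop (𝓝 0) := by
          have h5 : Filter.Tendsto (fun n => T x - P n x) Filter.atTop (𝓝 (T x - T x)) :=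
            tendsto_const_nhds.sub h1
          rw [sub_self] at h5
          exact tendsto_zero_iff_norm_tendsto_zero.1 h5
        refine squeeze_zero (fun n => norm_nonneg _) (fun n => ?_) h4
        have h6 : P n (P n x) = P n x := by
          have h7 : (P n * P n) x = P n x := by rw [(hP1 n).1.isIdempotentElem]
          exact h7
        have h8 : P n (T x) - P n x = P n (T x - P n x) := by rw [map_sub, h6]
        rw [h8]
        exact gs8119_norm_le _ (hP1 n).1 _
      have h9 : Filter.Tendsto (fun n => P n (T x) - P n x) Filter.atTop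
          (𝓝 (T (T x) - T x)) := h2.sub h1
      exact sub_eq_zero.1 (tendsto_nhds_unique h9 h3)
    refine ⟨⟨?_, ?_⟩, ?_, ?_⟩
    · exact ContinuousLinearMap.ext fun x => hTid x
    · exact ContinuousLinearMap.isSelfAdjoint_iff_isSymmetric.2 fun x y => hTsa x y
    · intro S h1 h2
      refine ContinuousLinearMap.ext fun x => ?_
      classical
      obtain ⟨P, hP1, hP2⟩ := gs8119_seq _ T hT {x, S x}
      have h3 := hP2 x (by simp)
      have h4 := hP2 (S x) (by simp)
      have h5 : Filter.Tendsto (fun n => S (P n x)) Filter.atTop (𝓝 (S (T x))) :=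
        (S.continuous.tendsto _).comp h3
      have h6 : (fun n => S (P n x)) = fun n => P n (S x) := by
        funext n
        have h7 := (hP1 n).2.1 S h1 h2
        have h8 : (S * P n) x = (P n * S) x := by rw [h7]
        exact h8
      rw [h6] at h5
      exact tendsto_nhds_unique h5 h4
    · intro s t hs0 hs1 ht0 ht1
      by_cases hG : T * ((1 - E s) * (1 - F t)) = 0
      · left; exact hG
      · right
        have hx : ∃ x, T (((1 - E s) * (1 - F t)) x) ≠ 0 := by
          by_contra hcon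
          push Not at hcon
          exact hG (ContinuousLinearMap.ext fun x => hcon x)
        obtain ⟨x, hx⟩ := hx
        refine ContinuousLinearMap.ext fun y => ?_
        classical
        obtain ⟨P, hP1, hP2⟩ := gs8119_seq _ T hT {((1 - E s) * (1 - F t)) x, (E s * F t) y}
        have h3 := hP2 (((1 - E s) * (1 - F t)) x) (by simp)
        have h4 := hP2 ((E s * F t) y) (by simp)
        have h5 : ∀ᶠ n in Filter.atTop, P n (((1 - E s) * (1 - F t)) x) ≠ 0 :=
          h3.eventually_ne hx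
        have h6 : ∀ᶠ n in Filter.atTop, P n ((E s * F t) y) = (E s * F t) y := by
          filter_upwards [h5] with n hn
          rcases (hP1 n).2.2 s t hs0 hs1 ht0 ht1 with h7 | h7
          · exfalso
            apply hn
            have h8 : (P n * ((1 - E s) * (1 - F t))) x = 0 := by rw [h7]; rfl
            exact h8
          · have h8 : (P n * (E s * F t)) y = (E s * F t) y := by rw [h7]
            exact h8
        have h7 : Filter.Tendsto (fun n => P n ((E s * F t) y)) Filter.atTop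
            (𝓝 ((E s * F t) y)) :=
          Filter.Tendsto.congr' (Filter.EventuallyEq.symm h6) tendsto_const_nhds
        exact tendsto_nhds_unique h4 h7

theorem gs8119_gen {E F : ℝ → (H →L[ℂ] H)} (h : TwoNests E F) :
    genSet E F ⊆ gs8119_M E F := by
  have hEE := gs8119_comm h.projE h.monoE
  have hFF := gs8119_comm h.projF h.monoF
  rintro P ⟨τ, hτ0, hτ1, rfl | rfl⟩
  · refine ⟨h.projE τ, fun S h1 _ => h1 τ, fun s t hs0 hs1 ht0 ht1 => ?_⟩
    rcases le_total τ s with hle | hle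
    · left
      have h1 : E τ * (1 - E s) = 0 := by rw [mul_sub, mul_one, h.monoE τ s hle, sub_self]
      rw [← mul_assoc, h1, zero_mul]
    · right
      rw [← mul_assoc, hEE τ s, h.monoE s τ hle]
  · refine ⟨h.projF τ, fun S _ h2 => h2 τ, fun s t hs0 hs1 ht0 ht1 => ?_⟩
    rcases le_total τ t with hle | hle
    · left
      have h1 : F τ * (1 - E s) = (1 - E s) * F τ := by
        rw [mul_sub, sub_mul, mul_one, one_mul, h.comm s τ]
      have h2 : F τ * (1 - F t) = 0 := by rw [mul_sub, mul_one, h.monoF τ t hle, sub_self]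
      rw [← mul_assoc, h1, mul_assoc, h2, mul_zero]
    · right
      rw [← mul_assoc, ← h.comm s τ, mul_assoc, hFF τ t, h.monoF t τ hle]

/-- D0: the generated lattice is a CSL contained in the double commutant and has property (star) -/
theorem generated_star {E F : ℝ → (H →L[ℂ] H)} (h : TwoNests E F) :
    IsCSL (generated (genSet E F)) ∧ genSet E F ⊆ generated (genSet E F) ∧
    ∀ P ∈ generated (genSet E F), ∀ s t : ℝ, 0 ≤ s → s ≤ 1 → 0 ≤ t → t ≤ 1 →
      P * ((1 - E s) * (1 - F t)) = 0 ∨ P * (E s * F t) = E s * F t := by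
  have hM := gs8119_csl h
  have hG := gs8119_gen h
  have hsub : ∀ P ∈ generated (genSet E F), P ∈ gs8119_M E F := fun P hP => hP _ hM hG
  refine ⟨⟨fun P hP => hM.proj P (hsub P hP), fun P hP Q hQ =>
    hM.comm P (hsub P hP) Q (hsub Q hQ), fun L hL _ => hL.zero_mem, fun L hL _ => hL.one_mem,
    fun P hP Q hQ L hL hGL => hL.inf_mem P (hP L hL hGL) Q (hQ L hL hGL),
    fun P hP Q hQ L hL hGL => hL.sup_mem P (hP L hL hGL) Q (hQ L hL hGL),
    fun T hT L hL hGL => hL.sot_closed T fun s ε hε => ?_⟩,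
    fun P hP L _ hGL => hGL hP, fun P hP s t hs0 hs1 ht0 ht1 =>
      (hsub P hP).2.2 s t hs0 hs1 ht0 ht1⟩
  obtain ⟨P, hP1, hP2⟩ := hT s ε hε
  exact ⟨P, hP1 L hL hGL, hP2⟩

end DC
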