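import Pool.Agent.Helper360.Dist.Gen

set_option maxHeartbeats 4000000

open scoped InnerProductSpace Topology ComplexConjugate
open MeasureTheory

namespace DC

variable {H : Type*} [NormedAddCommGroup H] [InnerProductSpace ℂ H] [CompleteSpace H]

theorem lat_star {E F : ℝ → (H →L[ℂ] H)} (h : TwoNests E F) (P : H →L[ℂ] H)
    (hP : P ∈ LatOf (AlgOf (generated (genSet E F)))) (s t : ℝ) (hs0 : 0 ≤ s) (hs1 : s ≤ 1)
    (ht0 : 0 ≤ t) (ht1 : t ≤ 1) (x y : H) (hx1 : E s x = x) (hx2 : F t x = x) (hy1 : E s y = 0)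
    (hy2 : F t y = 0) (hPy : P y ≠ 0) : P x = x := by
  obtain ⟨hcsl, hsub, hstar⟩ := generated_star h
  obtain ⟨hPp, hPinv⟩ := hP
  have key : ∀ Q ∈ generated (genSet E F), Q ∈ AlgOf (generated (genSet E F)) := by
    intro Q hQ R hR
    have h1 : R * Q = Q * R := hcsl.comm R hR Q hQ
    have h2 : R * R = R := (hcsl.proj R hR).isIdempotentElem
    rw [h1, mul_assoc, h2]
  have comm : ∀ Q ∈ generated (genSet E F), P * Q = Q * P := by
    intro Q hQ
    have h1 := hPinv Q (key Q hQ)
    have h2 : star (Q * P) = star (P * Q * P) := congrArg star h1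
    rw [star_mul, star_mul, star_mul, hPp.isSelfAdjoint.star_eq,
      (hcsl.proj Q hQ).isSelfAdjoint.star_eq, ← mul_assoc] at h2
    rw [h2, h1]
  have hEs : E s ∈ generated (genSet E F) := hsub ⟨s, hs0, hs1, Or.inl rfl⟩
  have hFt : F t ∈ generated (genSet E F) := hsub ⟨t, ht0, ht1, Or.inr rfl⟩
  have e1 : E s (P y) = 0 := by
    have := congrArg (fun Z : H →L[ℂ] H => Z y) (comm _ hEs)
    have h2 : P (E s y) = E s (P y) := this
    rw [← h2, hy1, map_zero]
  have e2 : F t (P y) = 0 := by
    have := congrArg (fun Z : H →L[ℂ] H => Z y) (comm _ hFt)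
    have h2 : P (F t y) = F t (P y) := this
    rw [← h2, hy2, map_zero]
  set k := P y with hk
  have hPk : P k = k := by
    have := congrArg (fun Z : H →L[ℂ] H => Z y) hPp.isIdempotentElem
    exact this
  let R : H →L[ℂ] H := (innerSL ℂ k).smulRight x
  have hRapp : ∀ f, R f = inner ℂ k f • x := fun f => rfl
  have hR : R ∈ AlgOf (generated (genSet E F)) := by
    intro Q hQ
    have hQp := hcsl.proj Q hQ
    have hsa : ∀ u v, inner ℂ u (Q v) = inner ℂ (Q u) v := by
      intro u v
      have h1 : ContinuousLinearMap.adjoint Q = Q := hQp.isSelfAdjoint.star_eq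
      rw [← ContinuousLinearMap.adjoint_inner_left, h1]
    ext f
    change R (Q f) = Q (R (Q f))
    rw [hRapp, map_smul]
    rcases hstar Q hQ s t hs0 hs1 ht0 ht1 with h0 | h1
    · have h2 : Q k = 0 := by
        have h3 := congrArg (fun Z : H →L[ℂ] H => Z k) h0
        have h4 : Q ((k - F t k) - E s (k - F t k)) = 0 := h3
        rw [e2, sub_zero, e1, sub_zero] at h4
        exact h4
      rw [hsa, h2, inner_zero_left, zero_smul, zero_smul]
    · have h2 : Q x = x := by
        have h3 := congrArg (fun Z : H →L[ℂ] H => Z x) h1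
        have h4 : Q (E s (F t x)) = E s (F t x) := h3
        rw [hx2, hx1] at h4
        exact h4
      rw [h2]
  have h5 := congrArg (fun Z : H →L[ℂ] H => Z k) (hPinv R hR)
  have h6 : R (P k) = P (R (P k)) := h5
  rw [hPk, hRapp, map_smul] at h6
  have hne : (inner ℂ k k : ℂ) ≠ 0 := inner_self_ne_zero.mpr hPy
  exact (smul_right_injective H hne h6).symm

end DC
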