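import Pool.Agent.Helper360.Dist.Base
import Pool.Agent.Helper360.Dist.Gen
import Pool.Agent.Helper360.Dist.Lat
set_option maxHeartbeats 4000000

open scoped InnerProductSpace Topology ComplexConjugate
open MeasureTheory

namespace DC

variable {H : Type*} [NormedAddCommGroup H] [InnerProductSpace ℂ H] [CompleteSpace H]

/- ================= TARGET ================= -/
theorem exists_bad_sym {P : H →L[ℂ] H} (hP : IsStarProjection P) (x y : H) :
    inner ℂ (P x) y = inner ℂ x (P y) := by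
  have h := ContinuousLinearMap.isSelfAdjoint_iff_isSymmetric.1 hP.isSelfAdjoint
  exact h x y

theorem exists_bad_idem {P : H →L[ℂ] H} (hP : IsStarProjection P) (x : H) : P (P x) = P x := by
  have h : P * P = P := hP.isIdempotentElem
  calc P (P x) = (P * P) x := rfl
    _ = P x := by rw [h]

theorem exists_bad_norm {P : H →L[ℂ] H} (hP : IsStarProjection P) (x : H) : ‖P x‖ ≤ ‖x‖ := by
  have h1 : inner ℂ (P x) (P x) = inner ℂ x (P x) := by
    rw [exists_bad_sym hP, exists_bad_idem hP]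
  have h2 : ‖P x‖ * ‖P x‖ = ‖(inner ℂ x (P x) : ℂ)‖ := by
    rw [← h1, inner_self_eq_norm_sq_to_K, norm_pow]
    simp [pow_two]
  have h3 : ‖(inner ℂ x (P x) : ℂ)‖ ≤ ‖x‖ * ‖P x‖ := norm_inner_le_norm x (P x)
  rw [← h2] at h3
  rcases eq_or_lt_of_le (norm_nonneg (P x)) with h | h
  · rw [← h]; exact norm_nonneg x
  · exact le_of_mul_le_mul_right h3 h

theorem exists_bad_norm_one {z : H} (h1 : inner ℂ z z = (1 : ℂ)) : ‖z‖ = 1 := by
  have h2 := inner_self_eq_norm_sq (𝕜 := ℂ) z
  rw [h1, RCLike.one_re] at h2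
  have h4 := norm_nonneg z
  nlinarith

theorem exists_bad_compl {P : H →L[ℂ] H} (hP : IsStarProjection P) : IsStarProjection (1 - P) :=
  hP.one_sub

theorem exists_bad_up {E : ℝ → H →L[ℂ] H} (pr : ∀ t, IsStarProjection (E t))
    (mo : ∀ s t, s ≤ t → E s * E t = E s) {s t : ℝ} (hst : s ≤ t) {x : H} (hx : E s x = x) :
    E t x = x := by
  have h : E t * E s = E s := by
    have := congrArg star (mo s t hst)
    rwa [star_mul, (pr s).isSelfAdjoint.star_eq, (pr t).isSelfAdjoint.star_eq] at this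
  have h2 : (E t * E s) x = E s x := by rw [h]
  have h3 : E t (E s x) = E s x := h2
  rw [hx] at h3
  exact h3

theorem exists_bad_down {E : ℝ → H →L[ℂ] H}
    (mo : ∀ s t, s ≤ t → E s * E t = E s) {s t : ℝ} (hst : s ≤ t) {x : H} (hx : E t x = 0) :
    E s x = 0 := by
  have h2 : (E s * E t) x = E s x := by rw [mo s t hst]
  have h3 : E s (E t x) = E s x := h2
  rw [hx, map_zero] at h3
  exact h3.symm

theorem exists_bad_orth {Q : H →L[ℂ] H} (hQ : IsStarProjection Q) {x y : H} (hx : Q x = x)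
    (hy : Q y = 0) : inner ℂ x y = (0 : ℂ) := by
  rw [← hx, exists_bad_sym hQ, hy, inner_zero_right]

theorem exists_bad_on {Y : Type} {E : ℝ → H →L[ℂ] H} (pr : ∀ t, IsStarProjection (E t))
    (mo : ∀ s t, s ≤ t → E s * E t = E s) {i : Y → ℕ} (hi : Function.Injective i) {c : Y → H}
    {al be : Y → ℝ} (h1 : ∀ p, ‖c p‖ = 1) (h2 : ∀ p, E (be p) (c p) = c p)
    (h3 : ∀ p, E (al p) (c p) = 0) (h4 : ∀ p q, i p < i q → be p ≤ al q) : Orthonormal ℂ c := by
  have key : ∀ p q, i p < i q → inner ℂ (c p) (c q) = (0 : ℂ) := fun p q h =>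
    exists_bad_orth (pr (be p)) (h2 p) (exists_bad_down mo (h4 p q h) (h3 q))
  refine ⟨h1, fun p q hpq => ?_⟩
  rcases lt_or_gt_of_ne (fun h => hpq (hi h)) with h | h
  · exact key p q h
  · show inner ℂ (c p) (c q) = (0 : ℂ)
    rw [← inner_conj_symm, key q p h, map_zero]

theorem exists_bad_kill {G : Set (H →L[ℂ] H)} {A : H →L[ℂ] H} (hA : A ∈ AlgOf G)
    {Q : H →L[ℂ] H} (hQG : Q ∈ G) (hQ : IsStarProjection Q) {x y : H} (hx : Q x = 0)
    (hy : Q y = y) : inner ℂ x (A y) = (0 : ℂ) := by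
  have h1 : (A * Q) y = (Q * A * Q) y := congrArg (fun T : H →L[ℂ] H => T y) (hA Q hQG)
  have h2 : A (Q y) = Q (A (Q y)) := h1
  rw [hy] at h2
  rw [h2, ← exists_bad_sym hQ, hx, inner_zero_left]

/-- D2: the operators -/
theorem exists_bad {E F : ℝ → (H →L[ℂ] H)} (h : TwoNests E F) (r : ℕ) (hr : Stage r) :
    ∃ T : H →L[ℂ] H, (∀ A ∈ AlgOf (generated (genSet E F)), (r + 1 : ℝ) ≤ ‖T - A‖) ∧
      ∀ P ∈ LatOf (AlgOf (generated (genSet E F))), ‖(1 - P) * T * P‖ ^ 2 ≤ 4 * r + 1 := by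
  obtain ⟨Y, κ, instY, instD, instκ, n, i, j, S, w, hκ, hin, hjn, hi, hj, hS1, hw1, hw2, hw3⟩ := hr
  obtain ⟨hCSL, hgen, -⟩ := generated_star h
  set D : ℕ → ℝ := fun m => (m : ℝ) / (2 * n) with hD
  have Dle : ∀ m m' : ℕ, m ≤ m' → D m ≤ D m' := by
    intro m m' hm
    simp only [hD]
    have : (m : ℝ) ≤ m' := by exact_mod_cast hm
    gcongr
  have Dlt : ∀ m m' : ℕ, 0 < n → m < m' → D m < D m' := by
    intro m m' hn hm
    simp only [hD]
    have : (m : ℝ) < m' := by exact_mod_cast hm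
    have hn' : (0 : ℝ) < n := by exact_mod_cast hn
    gcongr
  have D0 : ∀ m : ℕ, 0 ≤ D m := by
    intro m
    simp only [hD]
    positivity
  have D1 : ∀ m : ℕ, 0 < n → m ≤ 2 * n → D m ≤ 1 := by
    intro m hn hm
    simp only [hD]
    have hn' : (0 : ℝ) < n := by exact_mod_cast hn
    rw [div_le_one (by positivity)]
    exact_mod_cast hm
  have hn0 : ∀ p : Y, 0 < n := fun p => lt_of_le_of_lt (Nat.zero_le _) (hin p)
  have hcex : ∀ p : Y, ∃ x : H, ‖x‖ = 1 ∧ E (D (2 * i p + 2)) x = x ∧ E (D (2 * i p + 1)) x = 0 ∧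
      F (D (2 * j p + 1)) x = x ∧ F (D (2 * j p)) x = 0 := by
    intro p
    have h1 := hin p
    have h2 := hjn p
    exact h.cell _ _ _ _ (D0 _) (Dlt _ _ (hn0 p) (by omega)) (D1 _ (hn0 p) (by omega)) (D0 _)
      (Dlt _ _ (hn0 p) (by omega)) (D1 _ (hn0 p) (by omega))
  have hρex : ∀ p : Y, ∃ x : H, ‖x‖ = 1 ∧ E (D (2 * i p + 1)) x = x ∧ E (D (2 * i p)) x = 0 ∧
      F (D (2 * j p + 2)) x = x ∧ F (D (2 * j p + 1)) x = 0 := by
    intro p
    have h1 := hin p
    have h2 := hjn p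
    exact h.cell _ _ _ _ (D0 _) (Dlt _ _ (hn0 p) (by omega)) (D1 _ (hn0 p) (by omega)) (D0 _)
      (Dlt _ _ (hn0 p) (by omega)) (D1 _ (hn0 p) (by omega))
  choose c hc1 hc2 hc3 hc4 hc5 using hcex
  choose ρ hρ1 hρ2 hρ3 hρ4 hρ5 using hρex
  have hcon : Orthonormal ℂ c := exists_bad_on h.projE h.monoE hi hc1 hc2 hc3
    (fun p q hpq => Dle _ _ (by omega))
  have hρon : Orthonormal ℂ ρ := exists_bad_on h.projE h.monoE hi hρ1 hρ2 hρ3
    (fun p q hpq => Dle _ _ (by omega))
  set T : H →L[ℂ] H := ∑ p, ∑ q, (S p q : ℂ) • (innerSL ℂ (c q)).smulRight (ρ p) with hT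
  have hTf : ∀ f, T f = ∑ p, ∑ q, ((S p q : ℂ) * inner ℂ (c q) f) • ρ p := by
    intro f
    simp only [hT, sum_apply, ContinuousLinearMap.smul_apply,
      ContinuousLinearMap.smulRight_apply, innerSL_apply_apply]
    refine Finset.sum_congr rfl fun p _ => Finset.sum_congr rfl fun q _ => ?_
    rw [mul_smul]
  have hTin : ∀ g f, inner ℂ g (T f) =
      ∑ p, ∑ q, (S p q : ℂ) * inner ℂ (c q) f * inner ℂ g (ρ p) := by
    intro g f
    rw [hTf, inner_sum]
    refine Finset.sum_congr rfl fun p _ => ?_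
    rw [inner_sum]
    refine Finset.sum_congr rfl fun q _ => ?_
    rw [inner_smul_right]
  refine ⟨T, ?_, ?_⟩
  · -- lower bound
    intro A hA
    have hM : ∀ p q, ¬ (i p < i q ∧ j p < j q) → inner ℂ (ρ p) (A (c q)) = (0 : ℂ) := by
      intro p q hpq
      have h1 := hin p
      have h2 := hjn p
      have h3 := hin q
      have h4 := hjn q
      by_cases hjq : j q ≤ j p
      · refine exists_bad_kill hA (hgen ⟨D (2 * j q + 1), D0 _, D1 _ (hn0 p) (by omega),
          Or.inr rfl⟩) (h.projF _) ?_ (hc4 q)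
        exact exists_bad_down h.monoF (Dle _ _ (by omega)) (hρ5 p)
      · have hjlt : j p < j q := not_le.1 hjq
        have hile : i q ≤ i p := by
          by_contra hcon
          exact hpq ⟨not_le.1 hcon, hjlt⟩
        have hne : i q ≠ i p := by
          intro heq
          have := hi heq
          subst this
          exact lt_irrefl _ hjlt
        refine exists_bad_kill hA (hgen ⟨D (2 * i q + 2), D0 _, D1 _ (hn0 p) (by omega),
          Or.inl rfl⟩) (h.projE _) ?_ (hc2 q)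
        exact exists_bad_down h.monoE (Dle _ _ (by omega)) (hρ3 p)
    set f : κ → H := fun k => ∑ q, (w k q : ℂ) • c q with hf
    set g : κ → H := fun k => ∑ p, (w k p : ℂ) • ρ p with hg
    have hnorm : ∀ (v : Y → H) (hv : Orthonormal ℂ v) (k : κ), ‖∑ p, (w k p : ℂ) • v p‖ = 1 := by
      intro v hv k
      have h1 : inner ℂ (∑ p, (w k p : ℂ) • v p) (∑ p, (w k p : ℂ) • v p) = (1 : ℂ) := by
        rw [hv.inner_sum]
        have h2 : ∑ p, conj ((w k p : ℂ)) * (w k p : ℂ) = ((∑ p, w k p ^ 2 : ℝ) : ℂ) := by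
          push_cast
          refine Finset.sum_congr rfl fun p _ => ?_
          rw [Complex.conj_ofReal, pow_two]
        rw [h2, hw1 k, Complex.ofReal_one]
      exact exists_bad_norm_one h1
    have hfn : ∀ k, ‖f k‖ = 1 := fun k => hnorm c hcon k
    have hgn : ∀ k, ‖g k‖ = 1 := fun k => hnorm ρ hρon k
    have hTk : ∀ k, inner ℂ (g k) (T (f k)) = ((∑ p, ∑ q, w k p * S p q * w k q : ℝ) : ℂ) := by
      intro k
      rw [hTin]
      push_cast
      refine Finset.sum_congr rfl fun p _ => Finset.sum_congr rfl fun q _ => ?_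
      have e1 : inner ℂ (c q) (f k) = (w k q : ℂ) := hcon.inner_right_fintype _ q
      have e2 : inner ℂ (g k) (ρ p) = (w k p : ℂ) := by
        have := hρon.inner_left_fintype (fun p => (w k p : ℂ)) p
        rw [Complex.conj_ofReal] at this
        exact this
      rw [e1, e2]
      ring
    have hAk : ∀ k, inner ℂ (g k) (A (f k)) =
        ∑ p, ∑ q, inner ℂ (ρ p) (A (c q)) * ((w k p * w k q : ℝ) : ℂ) := by
      intro k
      simp only [hf, hg, map_sum, map_smul]
      rw [sum_inner]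
      refine Finset.sum_congr rfl fun p _ => ?_
      rw [inner_sum]
      refine Finset.sum_congr rfl fun q _ => ?_
      rw [inner_smul_left, inner_smul_right, Complex.conj_ofReal]
      push_cast
      ring
    have hsumA : ∑ k, inner ℂ (g k) (A (f k)) = (0 : ℂ) := by
      simp only [hAk]
      rw [Finset.sum_comm]
      refine Finset.sum_eq_zero fun p _ => ?_
      rw [Finset.sum_comm]
      refine Finset.sum_eq_zero fun q _ => ?_
      rw [← Finset.mul_sum]
      by_cases hpq : i p < i q ∧ j p < j q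
      · have := hw2 p q hpq.1 hpq.2
        have h2 : ∑ k, ((w k p * w k q : ℝ) : ℂ) = ((∑ k, w k p * w k q : ℝ) : ℂ) := by
          push_cast; rfl
        rw [h2, this]
        simp
      · rw [hM p q hpq, zero_mul]
    have hsumT : ∑ k, inner ℂ (g k) (T (f k)) = (((r + 1) * Fintype.card κ : ℝ) : ℂ) := by
      simp only [hTk]
      rw [← hw3]
      push_cast
      rfl
    have hsum : ∑ k, inner ℂ (g k) ((T - A) (f k)) = (((r + 1) * Fintype.card κ : ℝ) : ℂ) := by
      rw [← hsumT, ← sub_zero (∑ k, inner ℂ (g k) (T (f k))), ← hsumA, ← Finset.sum_sub_distrib]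
      refine Finset.sum_congr rfl fun k _ => ?_
      rw [ContinuousLinearMap.sub_apply, inner_sub_right]
    have hle : ‖∑ k, (inner ℂ (g k) ((T - A) (f k)) : ℂ)‖ ≤ ∑ _k : κ, ‖T - A‖ := by
      refine (norm_sum_le _ _).trans (Finset.sum_le_sum fun k _ => ?_)
      calc ‖(inner ℂ (g k) ((T - A) (f k)) : ℂ)‖ ≤ ‖g k‖ * ‖(T - A) (f k)‖ := norm_inner_le_norm _ _
        _ = ‖(T - A) (f k)‖ := by rw [hgn, one_mul]
        _ ≤ ‖T - A‖ * ‖f k‖ := (T - A).le_opNorm _
        _ = ‖T - A‖ := by rw [hfn, mul_one]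
    rw [hsum, Complex.norm_real, Finset.sum_const, Finset.card_univ, nsmul_eq_mul] at hle
    have hcard : (0 : ℝ) < Fintype.card κ := by exact_mod_cast Fintype.card_pos
    rw [Real.norm_of_nonneg (by positivity), mul_comm] at hle
    exact le_of_mul_le_mul_left hle hcard
  · -- upper bound
    intro P hP
    have hPp : IsStarProjection P := hP.1
    have hP1 : IsStarProjection (1 - P) := exists_bad_compl hPp
    have hbound : ∀ f : H, ‖((1 - P) * T * P) f‖ ≤ Real.sqrt (4 * r + 1) * ‖f‖ := by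
      intro f
      set g : H := ((1 - P) * T * P) f with hg
      have hg2 : g = (1 - P) (T (P f)) := rfl
      have h1 : inner ℂ g g = inner ℂ ((1 - P) g) (T (P f)) := by
        rw [exists_bad_sym hP1, ← hg2]
      rw [hTin] at h1
      have h2 := hS1 (fun q => inner ℂ (c q) (P f)) (fun p => inner ℂ (ρ p) ((1 - P) g)) (by
        intro p q hb ha hpq
        have hi1 := hin p
        have hj1 := hjn p
        have hPc : P (c q) ≠ 0 := by
          intro h0
          apply ha
          show inner ℂ (c q) (P f) = 0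
          rw [← exists_bad_sym hPp, h0, inner_zero_left]
        have hPρ : P (ρ p) = ρ p := by
          refine lat_star h P hP (D (2 * i p + 2)) (D (2 * j p + 2)) (D0 _)
            (D1 _ (hn0 p) (by omega)) (D0 _) (D1 _ (hn0 p) (by omega)) (ρ p) (c q) ?_ (hρ4 p) ?_ ?_
            hPc
          · exact exists_bad_up h.projE h.monoE (Dle _ _ (by omega)) (hρ2 p)
          · exact exists_bad_down h.monoE (Dle _ _ (by omega)) (hc3 q)
          · exact exists_bad_down h.monoF (Dle _ _ (by omega)) (hc5 q)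
        apply hb
        show inner ℂ (ρ p) ((1 - P) g) = 0
        rw [← exists_bad_sym hP1]
        have : (1 - P) (ρ p) = ρ p - P (ρ p) := rfl
        rw [this, hPρ, sub_self, inner_zero_left])
      have h3 : ∑ p, ∑ q, (S p q : ℂ) * inner ℂ (c q) (P f) * conj (inner ℂ (ρ p) ((1 - P) g)) =
          inner ℂ g g := by
        rw [h1]
        refine Finset.sum_congr rfl fun p _ => Finset.sum_congr rfl fun q _ => ?_
        rw [inner_conj_symm]
      have h4 : ‖(inner ℂ g g : ℂ)‖ = ‖g‖ ^ 2 := by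
        rw [inner_self_eq_norm_sq_to_K, norm_pow]
        simp
      have h5 : ∑ q, ‖(inner ℂ (c q) (P f) : ℂ)‖ ^ 2 ≤ ‖f‖ ^ 2 := by
        have := hcon.sum_inner_products_le (P f) (s := Finset.univ)
        refine this.trans ?_
        have := exists_bad_norm hPp f
        gcongr
      have h6 : ∑ p, ‖(inner ℂ (ρ p) ((1 - P) g) : ℂ)‖ ^ 2 ≤ ‖g‖ ^ 2 := by
        have := hρon.sum_inner_products_le ((1 - P) g) (s := Finset.univ)
        refine this.trans ?_
        have := exists_bad_norm hP1 g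
        gcongr
      rw [h3, h4] at h2
      have h7 : (∑ q, ‖(inner ℂ (c q) (P f) : ℂ)‖ ^ 2) *
          ∑ p, ‖(inner ℂ (ρ p) ((1 - P) g) : ℂ)‖ ^ 2 ≤ ‖f‖ ^ 2 * ‖g‖ ^ 2 :=
        mul_le_mul h5 h6 (Finset.sum_nonneg fun _ _ => by positivity) (by positivity)
      have h8 : (‖g‖ ^ 2) ^ 2 ≤ (4 * r + 1) * (‖f‖ ^ 2 * ‖g‖ ^ 2) :=
        h2.trans (mul_le_mul_of_nonneg_left h7 (by positivity))
      rcases eq_or_lt_of_le (norm_nonneg g) with h0 | h0
      · rw [← h0]; positivity
      · apply le_of_sq_le_sq _ (by positivity)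
        rw [mul_pow, Real.sq_sqrt (by positivity)]
        have h9 : ‖g‖ ^ 2 * ‖g‖ ^ 2 ≤ ((4 * r + 1) * ‖f‖ ^ 2) * ‖g‖ ^ 2 := by nlinarith
        exact le_of_mul_le_mul_right h9 (by positivity)
    have h10 : ‖(1 - P) * T * P‖ ≤ Real.sqrt (4 * r + 1) :=
      ContinuousLinearMap.opNorm_le_bound _ (Real.sqrt_nonneg _) hbound
    have h11 : (Real.sqrt (4 * r + 1)) ^ 2 = (4 * r + 1 : ℝ) := Real.sq_sqrt (by positivity)
    rw [← h11]
    gcongr

end DC
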