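import Mathlib

set_option maxHeartbeats 4000000

open scoped InnerProductSpace Topology ComplexConjugate
open MeasureTheory

namespace DC

/-! ## abstract operator theory -/

section abstract

variable {H : Type*} [NormedAddCommGroup H] [InnerProductSpace ℂ H] [CompleteSpace H]

/-- commutative subspace lattices -/
structure IsCSL (L : Set (H →L[ℂ] H)) : Prop where
  proj : ∀ P ∈ L, IsStarProjection P
  comm : ∀ P ∈ L, ∀ Q ∈ L, P * Q = Q * P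
  zero_mem : (0 : H →L[ℂ] H) ∈ L
  one_mem : (1 : H →L[ℂ] H) ∈ L
  inf_mem : ∀ P ∈ L, ∀ Q ∈ L, P * Q ∈ L
  sup_mem : ∀ P ∈ L, ∀ Q ∈ L, P + Q - P * Q ∈ L
  sot_closed : ∀ T : H →L[ℂ] H,
    (∀ (s : Finset H) (ε : ℝ), 0 < ε → ∃ P ∈ L, ∀ x ∈ s, ‖T x - P x‖ < ε) → T ∈ L

/-- the smallest CSL containing `G` -/
def generated (G : Set (H →L[ℂ] H)) : Set (H →L[ℂ] H) :=
  {P | ∀ L : Set (H →L[ℂ] H), IsCSL L → G ⊆ L → P ∈ L}

/-- `Alg L` -/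
def AlgOf (L : Set (H →L[ℂ] H)) : Set (H →L[ℂ] H) := {T | ∀ P ∈ L, T * P = P * T * P}

/-- `Lat A`: the projections onto the closed invariant subspaces of `A` -/
def LatOf (A : Set (H →L[ℂ] H)) : Set (H →L[ℂ] H) :=
  {P | IsStarProjection P ∧ ∀ T ∈ A, T * P = P * T * P}

/-- distance constants -/
def HasDistanceConstant (A : Set (H →L[ℂ] H)) : Prop :=
  ∃ K : ℝ, ∀ T : H →L[ℂ] H,
    Metric.infDist T A ≤ K * sSup {r : ℝ | ∃ P ∈ LatOf A, r = ‖(1 - P) * T * P‖}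

/-- two commuting chains of projections indexed by `[0,1]` with nonzero cells -/
structure TwoNests (E F : ℝ → (H →L[ℂ] H)) : Prop where
  projE : ∀ t, IsStarProjection (E t)
  projF : ∀ t, IsStarProjection (F t)
  monoE : ∀ s t, s ≤ t → E s * E t = E s
  monoF : ∀ s t, s ≤ t → F s * F t = F s
  comm : ∀ s t, E s * F t = F t * E s
  cell : ∀ a b c d, 0 ≤ a → a < b → b ≤ 1 → 0 ≤ c → c < d → d ≤ 1 →
    ∃ x : H, ‖x‖ = 1 ∧ E b x = x ∧ E a x = 0 ∧ F d x = x ∧ F c x = 0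

/-- the generators -/
def genSet (E F : ℝ → (H →L[ℂ] H)) : Set (H →L[ℂ] H) :=
  {P | ∃ t : ℝ, 0 ≤ t ∧ t ≤ 1 ∧ (P = E t ∨ P = F t)}

end abstract

/-! ## the combinatorial data -/

/-- `r`-th stage: finite set `Y`, coordinates `i j`, matrix `S`, vectors `w`. -/
def Stage (r : ℕ) : Prop :=
  ∃ (Y κ : Type) (_ : Fintype Y) (_ : DecidableEq Y) (_ : Fintype κ) (n : ℕ) (i j : Y → ℕ)
    (S : Y → Y → ℝ) (w : κ → Y → ℝ),
    Nonempty κ ∧ (∀ p, i p < n) ∧ (∀ p, j p < n) ∧ Function.Injective i ∧ Function.Injective j ∧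
    (∀ a b : Y → ℂ, (∀ p q, b p ≠ 0 → a q ≠ 0 → ¬ (i p < i q ∧ j p < j q)) →
      ‖∑ p, ∑ q, (S p q : ℂ) * a q * conj (b p)‖ ^ 2 ≤
        (4 * r + 1) * ((∑ q, ‖a q‖ ^ 2) * ∑ p, ‖b p‖ ^ 2)) ∧
    (∀ k, ∑ p, w k p ^ 2 = 1) ∧
    (∀ p q, i p < i q → j p < j q → ∑ k, w k p * w k q = 0) ∧
    (∑ k, ∑ p, ∑ q, w k p * S p q * w k q = (r + 1) * Fintype.card κ)

end DC
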