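import Pool.Agent.Helper360.Dist.Base

set_option maxHeartbeats 4000000

open scoped InnerProductSpace Topology ComplexConjugate
open MeasureTheory

namespace DC

/-- the flip -/
def J {m : ℕ} (U : Fin m → Fin m → ℝ) (x y : Bool × Fin m) : ℝ :=
  if x.1 = false ∧ y.1 = true then U x.2 y.2
  else if x.1 = true ∧ y.1 = false then U y.2 x.2 else 0

/-- next matrix -/
def nextS {m : ℕ} (U : Fin m → Fin m → ℝ) {Y : Type} [DecidableEq Y] (S : Y → Y → ℝ)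
    (p q : (Bool × Fin m) × Y) : ℝ :=
  (if p.1 = q.1 then S p.2 q.2 else 0) + J U p.1 q.1 * (if p.2 = q.2 then 1 else 0)

/-- next order -/
def nextR {m : ℕ} {Y : Type} (R : Y → Y → Prop) (p q : (Bool × Fin m) × Y) : Prop :=
  p.1.1 = q.1.1 ∧ (p.1.2 < q.1.2 ∨ (p.1.2 = q.1.2 ∧ R p.2 q.2))

/-- Lebesgue measure on `[0,1]` -/
noncomputable def mu01 : Measure ℝ := volume.restrict (Set.Icc 0 1)

/-- `L²([0,1]²)` -/
abbrev L2Sq : Type := Lp ℂ 2 (mu01.prod mu01)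

/-- the projections onto `N_t ⊗ I` and `I ⊗ N_t` -/
def nestGen : Set (L2Sq →L[ℂ] L2Sq) :=
  {P | IsStarProjection P ∧ ∃ t : ℝ, 0 ≤ t ∧ t ≤ 1 ∧
    ((∀ f : L2Sq, P f = f ↔ ∀ᵐ p ∂(mu01.prod mu01), t ≤ p.1 → f p = 0) ∨
     (∀ f : L2Sq, P f = f ↔ ∀ᵐ p ∂(mu01.prod mu01), t ≤ p.2 → f p = 0))}

end DC
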