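import Pool.Agent.Helper360.Dist.Base
import Pool.Agent.Helper360.Dist.Defs
set_option maxHeartbeats 4000000

open scoped InnerProductSpace Topology ComplexConjugate
open MeasureTheory

namespace DC

/- ================= TARGET ================= -/
section JobE

variable {α : Type*} [MeasurableSpace α] {ν : Measure α}

/-- multiplication by an indicator, the vector -/
noncomputable def jobE_vec (A : Set α) (hA : MeasurableSet A) (f : Lp ℂ 2 ν) : Lp ℂ 2 ν :=
  (MemLp.indicator hA (Lp.memLp f)).toLp (A.indicator f)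

theorem jobE_vec_ae (A : Set α) (hA : MeasurableSet A) (f : Lp ℂ 2 ν) :
    jobE_vec A hA f =ᵐ[ν] A.indicator f :=
  MemLp.coeFn_toLp _

/-- multiplication by an indicator -/
noncomputable def jobE_P (A : Set α) (hA : MeasurableSet A) : Lp ℂ 2 ν →L[ℂ] Lp ℂ 2 ν :=
  LinearMap.mkContinuous
    { toFun := jobE_vec A hA
      map_add' := by
        intro f g
        apply Lp.ext
        filter_upwards [jobE_vec_ae A hA (f + g), jobE_vec_ae A hA f, jobE_vec_ae A hA g,
          Lp.coeFn_add f g, Lp.coeFn_add (jobE_vec A hA f) (jobE_vec A hA g)] with x h1 h2 h3 h4 h5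
        rw [h1, h5, Pi.add_apply, h2, h3]
        by_cases hx : x ∈ A
        · rw [Set.indicator_of_mem hx, Set.indicator_of_mem hx, Set.indicator_of_mem hx, h4]
          rfl
        · rw [Set.indicator_of_notMem hx, Set.indicator_of_notMem hx, Set.indicator_of_notMem hx,
            add_zero]
      map_smul' := by
        intro c f
        apply Lp.ext
        filter_upwards [jobE_vec_ae A hA (c • f), jobE_vec_ae A hA f,
          Lp.coeFn_smul c f, Lp.coeFn_smul c (jobE_vec A hA f)] with x h1 h2 h4 h5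
        rw [h1, RingHom.id_apply, h5, Pi.smul_apply, h2]
        by_cases hx : x ∈ A
        · rw [Set.indicator_of_mem hx, Set.indicator_of_mem hx, h4]
          rfl
        · rw [Set.indicator_of_notMem hx, Set.indicator_of_notMem hx, smul_zero] } 1
    (by
      intro f
      rw [one_mul]
      refine Lp.norm_le_norm_of_ae_le ?_
      filter_upwards [jobE_vec_ae A hA f] with x h1
      change ‖jobE_vec A hA f x‖ ≤ _
      rw [h1]
      exact norm_indicator_le_norm_self _ _)

theorem jobE_ae (A : Set α) (hA : MeasurableSet A) (f : Lp ℂ 2 ν) :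
    jobE_P A hA f =ᵐ[ν] A.indicator f :=
  jobE_vec_ae A hA f

theorem jobE_fix (A : Set α) (hA : MeasurableSet A) (f : Lp ℂ 2 ν) :
    jobE_P A hA f = f ↔ ∀ᵐ x ∂ν, x ∉ A → f x = 0 := by
  rw [Lp.ext_iff]
  constructor
  · intro h
    filter_upwards [h, jobE_ae A hA f] with x h1 h2 hx
    rw [← h1, h2, Set.indicator_of_notMem hx]
  · intro h
    filter_upwards [h, jobE_ae A hA f] with x h1 h2
    rw [h2]
    by_cases hx : x ∈ A
    · rw [Set.indicator_of_mem hx]
    · rw [Set.indicator_of_notMem hx, h1 hx]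

theorem jobE_zero (A : Set α) (hA : MeasurableSet A) (f : Lp ℂ 2 ν)
    (h : ∀ᵐ x ∂ν, x ∈ A → f x = 0) : jobE_P A hA f = 0 := by
  apply Lp.ext
  filter_upwards [h, jobE_ae A hA f, Lp.coeFn_zero ℂ 2 ν] with x h1 h2 h3
  rw [h2, h3]
  by_cases hx : x ∈ A
  · rw [Set.indicator_of_mem hx, h1 hx]
    rfl
  · rw [Set.indicator_of_notMem hx]
    rfl

theorem jobE_mul (A B : Set α) (hA : MeasurableSet A) (hB : MeasurableSet B) :
    (jobE_P A hA : Lp ℂ 2 ν →L[ℂ] Lp ℂ 2 ν) * jobE_P B hB = jobE_P (A ∩ B) (hA.inter hB) := by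
  ext1 f
  apply Lp.ext
  change (jobE_P A hA (jobE_P B hB f) : α → ℂ) =ᵐ[ν] _
  filter_upwards [jobE_ae A hA (jobE_P B hB f), jobE_ae B hB f,
    jobE_ae (A ∩ B) (hA.inter hB) f] with x h1 h2 h3
  rw [h1, h3]
  by_cases hx : x ∈ A
  · by_cases hx' : x ∈ B
    · rw [Set.indicator_of_mem hx, h2, Set.indicator_of_mem hx',
        Set.indicator_of_mem (Set.mem_inter hx hx')]
    · rw [Set.indicator_of_mem hx, h2, Set.indicator_of_notMem hx',
        Set.indicator_of_notMem (fun h => hx' h.2)]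
  · rw [Set.indicator_of_notMem hx, Set.indicator_of_notMem (fun h => hx h.1)]

theorem jobE_congr {A B : Set α} (hA : MeasurableSet A) (hB : MeasurableSet B) (h : A = B) :
    (jobE_P A hA : Lp ℂ 2 ν →L[ℂ] Lp ℂ 2 ν) = jobE_P B hB := by
  subst h
  rfl

theorem jobE_sa (A : Set α) (hA : MeasurableSet A) :
    IsSelfAdjoint (jobE_P A hA : Lp ℂ 2 ν →L[ℂ] Lp ℂ 2 ν) := by
  rw [ContinuousLinearMap.isSelfAdjoint_iff_isSymmetric]
  intro f g
  change ⟪jobE_P A hA f, g⟫_ℂ = ⟪f, jobE_P A hA g⟫_ℂ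
  rw [L2.inner_def, L2.inner_def]
  refine integral_congr_ae ?_
  filter_upwards [jobE_ae A hA f, jobE_ae A hA g] with x h1 h2
  rw [h1, h2]
  by_cases hx : x ∈ A
  · rw [Set.indicator_of_mem hx, Set.indicator_of_mem hx]
  · rw [Set.indicator_of_notMem hx, Set.indicator_of_notMem hx, inner_zero_left, inner_zero_right]

theorem jobE_proj (A : Set α) (hA : MeasurableSet A) :
    IsStarProjection (jobE_P A hA : Lp ℂ 2 ν →L[ℂ] Lp ℂ 2 ν) := by
  refine ⟨?_, jobE_sa A hA⟩
  change jobE_P A hA * jobE_P A hA = jobE_P A hA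
  rw [jobE_mul]
  exact jobE_congr _ _ (Set.inter_self A)

theorem jobE_unique {H : Type*} [NormedAddCommGroup H] [InnerProductSpace ℂ H] [CompleteSpace H]
    {P Q : H →L[ℂ] H} (hP : IsStarProjection P) (hQ : IsStarProjection Q)
    (h : ∀ f, P f = f ↔ Q f = f) : P = Q := by
  have h1 : P * Q = Q := by
    ext1 f
    change P (Q f) = Q f
    rw [h]
    exact congrArg (fun T : H →L[ℂ] H => T f) hQ.isIdempotentElem
  have h2 : Q * P = P := by
    ext1 f
    change Q (P f) = P f
    rw [← h]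
    exact congrArg (fun T : H →L[ℂ] H => T f) hP.isIdempotentElem
  have h3 : Q * P = Q := by
    have := congrArg star h1
    rwa [star_mul, hP.isSelfAdjoint.star_eq, hQ.isSelfAdjoint.star_eq] at this
  rw [← h2, h3]

theorem jobE_mu01 (a b : ℝ) (ha : 0 ≤ a) (hb : b ≤ 1) :
    mu01 (Set.Ico a b) = ENNReal.ofReal (b - a) := by
  unfold mu01
  rw [Measure.restrict_apply measurableSet_Ico]
  have : Set.Ico a b ∩ Set.Icc 0 1 = Set.Ico a b := by
    apply Set.inter_eq_left.mpr
    intro x hx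
    exact ⟨ha.trans hx.1, hx.2.le.trans hb⟩
  rw [this, Real.volume_Ico]

instance jobE_fin : IsFiniteMeasure mu01 := by
  unfold mu01
  infer_instance

end JobE

/-- E: the two nests in `L²([0,1]²)` -/
theorem l2_nests : ∃ E F : ℝ → (L2Sq →L[ℂ] L2Sq), TwoNests E F ∧ nestGen = genSet E F := by
  have hA : ∀ t : ℝ, MeasurableSet {p : ℝ × ℝ | p.1 < t} := fun t =>
    measurableSet_lt measurable_fst measurable_const
  have hB : ∀ t : ℝ, MeasurableSet {p : ℝ × ℝ | p.2 < t} := fun t =>
    measurableSet_lt measurable_snd measurable_const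
  refine ⟨fun t => jobE_P {p : ℝ × ℝ | p.1 < t} (hA t),
    fun t => jobE_P {p : ℝ × ℝ | p.2 < t} (hB t), ?_, ?_⟩
  · refine ⟨fun t => jobE_proj _ _, fun t => jobE_proj _ _, ?_, ?_, ?_, ?_⟩
    · intro s t hst
      rw [jobE_mul]
      refine jobE_congr _ _ (Set.inter_eq_left.mpr ?_)
      intro p hp
      exact lt_of_lt_of_le hp hst
    · intro s t hst
      rw [jobE_mul]
      refine jobE_congr _ _ (Set.inter_eq_left.mpr ?_)
      intro p hp
      exact lt_of_lt_of_le hp hst
    · intro s t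
      rw [jobE_mul, jobE_mul]
      exact jobE_congr _ _ (Set.inter_comm _ _)
    · intro a b c d ha hab hb hc hcd hd
      have hS : MeasurableSet (Set.Ico a b ×ˢ Set.Ico c d) :=
        measurableSet_Ico.prod measurableSet_Ico
      have hmS : (mu01.prod mu01) (Set.Ico a b ×ˢ Set.Ico c d) =
          ENNReal.ofReal (b - a) * ENNReal.ofReal (d - c) := by
        rw [Measure.prod_prod, jobE_mu01 a b ha hb, jobE_mu01 c d hc hd]
      have hfin : (mu01.prod mu01) (Set.Ico a b ×ˢ Set.Ico c d) ≠ ⊤ := by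
        rw [hmS]
        exact ENNReal.mul_ne_top ENNReal.ofReal_ne_top ENNReal.ofReal_ne_top
      set y : L2Sq := indicatorConstLp 2 hS hfin (1 : ℂ) with hy
      have hyae : y =ᵐ[mu01.prod mu01] (Set.Ico a b ×ˢ Set.Ico c d).indicator (fun _ => (1 : ℂ)) :=
        indicatorConstLp_coeFn
      have hyn : ‖y‖ ≠ 0 := by
        rw [hy, norm_indicatorConstLp (by norm_num) (by norm_num), norm_one, one_mul]
        have hpos : 0 < (mu01.prod mu01).real (Set.Ico a b ×ˢ Set.Ico c d) := by
          rw [Measure.real, hmS, ENNReal.toReal_mul, ENNReal.toReal_ofReal (by linarith),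
            ENNReal.toReal_ofReal (by linarith)]
          exact mul_pos (by linarith) (by linarith)
        exact (Real.rpow_pos_of_pos hpos _).ne'
      have hsub : ∀ (A : Set (ℝ × ℝ)) (hA : MeasurableSet A),
          Set.Ico a b ×ˢ Set.Ico c d ⊆ A → jobE_P A hA y = y := by
        intro A hA' hSA
        rw [jobE_fix]
        filter_upwards [hyae] with p hp hpA
        rw [hp, Set.indicator_of_notMem (fun h => hpA (hSA h))]
      have hdis : ∀ (A : Set (ℝ × ℝ)) (hA : MeasurableSet A),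
          (∀ p ∈ A, p ∉ Set.Ico a b ×ˢ Set.Ico c d) → jobE_P A hA y = 0 := by
        intro A hA' hSA
        apply jobE_zero
        filter_upwards [hyae] with p hp hpA
        rw [hp, Set.indicator_of_notMem (hSA p hpA)]
      refine ⟨((‖y‖ : ℂ)⁻¹) • y, ?_, ?_, ?_, ?_, ?_⟩
      · rw [norm_smul, norm_inv, Complex.norm_real, norm_norm, inv_mul_cancel₀ hyn]
      · rw [map_smul, hsub {p : ℝ × ℝ | p.1 < b} (hA b) (fun p hp => hp.1.2)]
      · rw [map_smul, hdis {p : ℝ × ℝ | p.1 < a} (hA a)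
          (fun p hp h => absurd h.1.1 (not_le.mpr hp)), smul_zero]
      · rw [map_smul, hsub {p : ℝ × ℝ | p.2 < d} (hB d) (fun p hp => hp.2.2)]
      · rw [map_smul, hdis {p : ℝ × ℝ | p.2 < c} (hB c)
          (fun p hp h => absurd h.2.1 (not_le.mpr hp)), smul_zero]
  · have hfE : ∀ (t : ℝ) (f : L2Sq), jobE_P {p : ℝ × ℝ | p.1 < t} (hA t) f = f ↔
        ∀ᵐ p ∂(mu01.prod mu01), t ≤ p.1 → f p = 0 := by
      intro t f
      rw [jobE_fix]
      refine Filter.eventually_congr (Filter.Eventually.of_forall fun p => ?_)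
      simp only [Set.mem_ofPred_eq, not_lt]
    have hfF : ∀ (t : ℝ) (f : L2Sq), jobE_P {p : ℝ × ℝ | p.2 < t} (hB t) f = f ↔
        ∀ᵐ p ∂(mu01.prod mu01), t ≤ p.2 → f p = 0 := by
      intro t f
      rw [jobE_fix]
      refine Filter.eventually_congr (Filter.Eventually.of_forall fun p => ?_)
      simp only [Set.mem_ofPred_eq, not_lt]
    ext P
    constructor
    · rintro ⟨hP, t, ht0, ht1, h | h⟩
      · exact ⟨t, ht0, ht1, Or.inl (jobE_unique hP (jobE_proj _ _)
          (fun f => (h f).trans (hfE t f).symm))⟩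
      · exact ⟨t, ht0, ht1, Or.inr (jobE_unique hP (jobE_proj _ _)
          (fun f => (h f).trans (hfF t f).symm))⟩
    · rintro ⟨t, ht0, ht1, rfl | rfl⟩
      · exact ⟨jobE_proj _ _, t, ht0, ht1, Or.inl (hfE t)⟩
      · exact ⟨jobE_proj _ _, t, ht0, ht1, Or.inr (hfF t)⟩

end DC
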