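import Pool.Agent.Helper360.Dist.Base
import Pool.Agent.Helper360.Dist.Defs
set_option maxHeartbeats 4000000

open scoped InnerProductSpace Topology ComplexConjugate
open MeasureTheory

namespace DC

lemma flip_contr_orth {m : ℕ} (U : Fin m → Fin m → ℝ)
    (h1 : ∀ t t', ∑ s, U t s * U t' s = if t = t' then 1 else 0)
    (h2 : ∀ s s', ∑ t, U t s * U t s' = if s = s' then 1 else 0)
    (x x' : Bool × Fin m) :
    ∑ p : Bool × Fin m, J U p x * J U p x' = if x = x' then 1 else 0 := by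
  obtain ⟨c, s⟩ := x
  obtain ⟨c', s'⟩ := x'
  rw [Fintype.sum_prod_type]
  cases c <;> cases c' <;> simp [J, h1, h2]

/- ================= TARGET ================= -/
/-- B1: the flip is a contraction -/
theorem flip_contr {m : ℕ} (U : Fin m → Fin m → ℝ)
    (h1 : ∀ t t', ∑ s, U t s * U t' s = if t = t' then 1 else 0)
    (h2 : ∀ s s', ∑ t, U t s * U t s' = if s = s' then 1 else 0)
    {Y : Type} [Fintype Y] [DecidableEq Y] (a b : (Bool × Fin m) × Y → ℂ) :
    ‖∑ p : (Bool × Fin m) × Y, ∑ q : (Bool × Fin m) × Y,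
      ((J U p.1 q.1 * (if p.2 = q.2 then 1 else 0) : ℝ) : ℂ) * a q * conj (b p)‖ ^ 2 ≤
      (∑ q, ‖a q‖ ^ 2) * ∑ p, ‖b p‖ ^ 2 := by
  classical
  set V : (Bool × Fin m) × Y → ℂ := fun p => ∑ x : Bool × Fin m, (J U p.1 x : ℂ) * a (x, p.2) with hV
  have hsum : (∑ p : (Bool × Fin m) × Y, ∑ q : (Bool × Fin m) × Y,
      ((J U p.1 q.1 * (if p.2 = q.2 then 1 else 0) : ℝ) : ℂ) * a q * conj (b p)) =
      ∑ p, V p * conj (b p) := by
    refine Finset.sum_congr rfl fun p _ => ?_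
    rw [hV, Finset.sum_mul, Fintype.sum_prod_type]
    refine Finset.sum_congr rfl fun x _ => ?_
    rw [Finset.sum_eq_single p.2]
    · simp
    · intro y _ hy
      simp [hy.symm]
    · simp
  rw [hsum]
  have hcs : ‖∑ p, V p * conj (b p)‖ ^ 2 ≤ (∑ p, ‖V p‖ ^ 2) * ∑ p, ‖b p‖ ^ 2 := by
    have h0 : ‖∑ p, V p * conj (b p)‖ ≤ ∑ p, ‖V p‖ * ‖b p‖ := by
      refine (norm_sum_le _ _).trans (le_of_eq ?_)
      refine Finset.sum_congr rfl fun p _ => ?_
      simp
    calc ‖∑ p, V p * conj (b p)‖ ^ 2 ≤ (∑ p, ‖V p‖ * ‖b p‖) ^ 2 := by gcongr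
      _ ≤ _ := Finset.sum_mul_sq_le_sq_mul_sq _ _ _
  refine hcs.trans (le_of_eq ?_)
  congr 1
  have hc : ((∑ p, ‖V p‖ ^ 2 : ℝ) : ℂ) = ((∑ q, ‖a q‖ ^ 2 : ℝ) : ℂ) := by
    have hn : ∀ z : ℂ, ((‖z‖ ^ 2 : ℝ) : ℂ) = z * conj z := by
      intro z
      rw [Complex.mul_conj, Complex.normSq_eq_norm_sq]
    rw [Complex.ofReal_sum, Complex.ofReal_sum]
    simp_rw [hn]
    rw [Fintype.sum_prod_type_right, Fintype.sum_prod_type_right]
    refine Finset.sum_congr rfl fun y _ => ?_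
    have e1 : ∀ x : Bool × Fin m, V (x, y) * conj (V (x, y)) =
        ∑ u : Bool × Fin m, ∑ v : Bool × Fin m,
          ((J U x u * J U x v : ℝ) : ℂ) * (a (u, y) * conj (a (v, y))) := by
      intro x
      simp only [hV, map_sum, Finset.sum_mul_sum]
      refine Finset.sum_congr rfl fun u _ => Finset.sum_congr rfl fun v _ => ?_
      simp only [map_mul, Complex.conj_ofReal, Complex.ofReal_mul]
      ring
    simp_rw [e1]
    rw [Finset.sum_comm]
    refine Finset.sum_congr rfl fun u _ => ?_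
    rw [Finset.sum_comm]
    have e2 : ∀ v : Bool × Fin m, ∑ x : Bool × Fin m,
        ((J U x u * J U x v : ℝ) : ℂ) * (a (u, y) * conj (a (v, y))) =
        (if u = v then 1 else 0) * (a (u, y) * conj (a (v, y))) := by
      intro v
      rw [← Finset.sum_mul, ← Complex.ofReal_sum, flip_contr_orth U h1 h2]
      split_ifs <;> simp
    simp_rw [e2]
    simp
  exact_mod_cast hc

end DC
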