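import Pool.Agent.Helper360.Dist.Base

set_option maxHeartbeats 4000000

open scoped InnerProductSpace Topology ComplexConjugate
open MeasureTheory

namespace DC

theorem hadamard_step (c0 : ℝ) (hc : c0 * c0 = 1 / 2) (h : Bool → Bool → ℝ)
    (hh : h = fun b c => if (b && c) = true then -c0 else c0) :
    (∀ b b', ∑ c, h b c * h b' c = if b = b' then 1 else 0) ∧
    (∀ c c', ∑ b, h b c * h b c' = if c = c' then 1 else 0) := by
  subst hh
  constructor
  · intro b b'
    rw [Fintype.sum_bool]
    cases b <;> cases b' <;> simp [hc] <;> norm_num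
  · intro b b'
    rw [Fintype.sum_bool]
    cases b <;> cases b' <;> simp [hc] <;> norm_num

theorem hadamard_aux (k : ℕ) : ∃ (τ : Type) (_ : Fintype τ) (_ : DecidableEq τ) (_ : Nonempty τ)
    (U : τ → τ → ℝ), (∀ t t', ∑ s, U t s * U t' s = if t = t' then 1 else 0) ∧
      (∀ s s', ∑ t, U t s * U t s' = if s = s' then 1 else 0) ∧
      ∀ t s, |U t s| ≤ (1 / √2) ^ k := by
  induction k with
  | zero =>
    refine ⟨Unit, inferInstance, inferInstance, inferInstance, fun _ _ => 1, ?_, ?_, ?_⟩
    · intro t t'; simp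
    · intro t t'; simp
    · intro t s; simp
  | succ k ih =>
    obtain ⟨τ, i1, i2, i3, U, h1, h2, h3⟩ := ih
    have hc : (1 / √2) * (1 / √2) = (1 / 2 : ℝ) := by
      rw [div_mul_div_comm, Real.mul_self_sqrt (by norm_num)]
      norm_num
    obtain ⟨g1, g2⟩ := hadamard_step (1 / √2) hc _ rfl
    set h : Bool → Bool → ℝ := fun b c => if (b && c) = true then -(1 / √2) else 1 / √2 with hh
    have g1' : ∀ b b', ∑ c, h b c * h b' c = if b = b' then 1 else 0 := g1
    have g2' : ∀ c c', ∑ b, h b c * h b c' = if c = c' then 1 else 0 := g2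
    refine ⟨Bool × τ, inferInstance, inferInstance, inferInstance,
      fun p q => h p.1 q.1 * U p.2 q.2, ?_, ?_, ?_⟩
    · rintro ⟨b, x⟩ ⟨b', x'⟩
      rw [Fintype.sum_prod_type]
      have : ∀ c y, h b c * U x y * (h b' c * U x' y) = (h b c * h b' c) * (U x y * U x' y) :=
        fun c y => by ring
      simp only [this, ← Finset.mul_sum, ← Finset.sum_mul, g1', h1]
      by_cases e1 : b = b' <;> by_cases e2 : x = x' <;> simp [e1, e2]
    · rintro ⟨b, x⟩ ⟨b', x'⟩
      rw [Fintype.sum_prod_type]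
      have : ∀ c y, h c b * U y x * (h c b' * U y x') = (h c b * h c b') * (U y x * U y x') :=
        fun c y => by ring
      simp only [this, ← Finset.mul_sum, ← Finset.sum_mul, g2', h2]
      by_cases e1 : b = b' <;> by_cases e2 : x = x' <;> simp [e1, e2]
    · rintro ⟨b, x⟩ ⟨c, y⟩
      show |h b c * U x y| ≤ _
      rw [abs_mul, pow_succ']
      refine mul_le_mul ?_ (h3 x y) (abs_nonneg _) (by positivity)
      rw [hh]
      have h0 : (0 : ℝ) ≤ 1 / √2 := by positivity
      show |if (b && c) = true then -(1 / √2) else 1 / √2| ≤ 1 / √2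
      split_ifs
      · rw [abs_neg, abs_of_nonneg h0]
      · rw [abs_of_nonneg h0]

/- ================= TARGET ================= -/
/-- A: orthogonal matrices with small entries -/
theorem hadamard (ε : ℝ) (hε : 0 < ε) :
    ∃ (m : ℕ) (U : Fin m → Fin m → ℝ), 0 < m ∧
      (∀ t t', ∑ s, U t s * U t' s = if t = t' then 1 else 0) ∧
      (∀ s s', ∑ t, U t s * U t s' = if s = s' then 1 else 0) ∧
      (∀ t s, |U t s| ≤ ε) := by
  have hlt : (1 / √2 : ℝ) < 1 := by
    rw [div_lt_one (by positivity)]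
    have : √1 < √2 := Real.sqrt_lt_sqrt (by norm_num) (by norm_num)
    rwa [Real.sqrt_one] at this
  obtain ⟨k, hk⟩ := exists_pow_lt_of_lt_one hε hlt
  obtain ⟨τ, i1, i2, i3, U, h1, h2, h3⟩ := hadamard_aux k
  let e := Fintype.equivFin τ
  refine ⟨Fintype.card τ, fun a b => U (e.symm a) (e.symm b), Fintype.card_pos, ?_, ?_, ?_⟩
  · intro t t'
    rw [Equiv.sum_comp e.symm (fun s => U (e.symm t) s * U (e.symm t') s), h1]
    simp only [e.symm.injective.eq_iff]
  · intro t t'
    rw [Equiv.sum_comp e.symm (fun s => U s (e.symm t) * U s (e.symm t')), h2]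
    simp only [e.symm.injective.eq_iff]
  · intro t s
    exact (h3 _ _).trans hk.le

end DC
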