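import Pool.Agent.Helper360.Dist.Base
import Pool.Agent.Helper360.Dist.Defs
import Pool.Agent.Helper360.Dist.Flip
set_option maxHeartbeats 4000000

open scoped InnerProductSpace Topology ComplexConjugate
open MeasureTheory

namespace DC

/-! auxiliary lemmas for B -/

/-- l2 norm of a finite family -/
noncomputable def BN {ι : Type} [Fintype ι] (x : ι → ℂ) : ℝ := √(∑ i, ‖x i‖ ^ 2)

theorem BN_nonneg {ι : Type} [Fintype ι] (x : ι → ℂ) : 0 ≤ BN x := Real.sqrt_nonneg _

theorem BN_sq {ι : Type} [Fintype ι] (x : ι → ℂ) : BN x ^ 2 = ∑ i, ‖x i‖ ^ 2 :=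
  Real.sq_sqrt (Finset.sum_nonneg fun _ _ => sq_nonneg _)

theorem B_CS {ι : Type} [Fintype ι] (x z : ι → ℂ) : ‖∑ i, x i * conj (z i)‖ ≤ BN x * BN z := by
  refine (norm_sum_le _ _).trans ?_
  have : ∀ i, ‖x i * conj (z i)‖ = ‖x i‖ * ‖z i‖ := by
    intro i
    rw [norm_mul, RCLike.norm_conj]
  simp_rw [this]
  exact Real.sum_mul_le_sqrt_mul_sqrt _ _ _

theorem B_cs2 {x1 x2 y1 y2 p q : ℝ} (hx1 : 0 ≤ x1) (hx2 : 0 ≤ x2) (hy1 : 0 ≤ y1) (hy2 : 0 ≤ y2)
    (hp0 : 0 ≤ p) (hq0 : 0 ≤ q) (hp : p ^ 2 = x1 ^ 2 + x2 ^ 2) (hq : q ^ 2 = y1 ^ 2 + y2 ^ 2) :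
    x1 * y1 + x2 * y2 ≤ p * q := by
  rw [← pow_le_pow_iff_left₀ (by positivity) (by positivity) (two_ne_zero), mul_pow, hp, hq]
  nlinarith [sq_nonneg (x1 * y2 - x2 * y1)]

theorem B_cs4 {T c p p' q q' : ℝ} (hT0 : 0 ≤ T)
    (hT : T ≤ c * (p * q) + p * q' + p' * q + p' * q') :
    T ^ 2 ≤ (c ^ 2 + 3) * ((p ^ 2 + p' ^ 2) * (q ^ 2 + q' ^ 2)) := by
  have h1 : T ^ 2 ≤ (c * (p * q) + p * q' + p' * q + p' * q') ^ 2 := pow_le_pow_left₀ hT0 hT 2
  refine h1.trans ?_
  have e : (p ^ 2 + p' ^ 2) * (q ^ 2 + q' ^ 2)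
      = (p * q) ^ 2 + (p * q') ^ 2 + (p' * q) ^ 2 + (p' * q') ^ 2 := by ring
  rw [e]
  generalize p * q = x1
  generalize p * q' = x2
  generalize p' * q = x3
  generalize p' * q' = x4
  have key : (c ^ 2 + 3) * (x1 ^ 2 + x2 ^ 2 + x3 ^ 2 + x4 ^ 2) - (c * x1 + x2 + x3 + x4) ^ 2
      = (c * x2 - x1) ^ 2 + (c * x3 - x1) ^ 2 + (c * x4 - x1) ^ 2 + (x2 - x3) ^ 2
        + (x2 - x4) ^ 2 + (x3 - x4) ^ 2 := by ring
  have : 0 ≤ (c * x2 - x1) ^ 2 + (c * x3 - x1) ^ 2 + (c * x4 - x1) ^ 2 + (x2 - x3) ^ 2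
        + (x2 - x4) ^ 2 + (x3 - x4) ^ 2 := by positivity
  linarith

/-- sesquilinear form of a kernel -/
noncomputable def Bf {ι : Type} [Fintype ι] (K : ι → ι → ℂ) (a b : ι → ℂ) : ℂ :=
  ∑ p, ∑ q, K p q * a q * conj (b p)

theorem Bf_addl {ι : Type} [Fintype ι] (K : ι → ι → ℂ) (a a' b : ι → ℂ) :
    Bf K (fun q => a q + a' q) b = Bf K a b + Bf K a' b := by
  unfold Bf
  rw [← Finset.sum_add_distrib]
  refine Finset.sum_congr rfl fun p _ => ?_
  rw [← Finset.sum_add_distrib]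
  refine Finset.sum_congr rfl fun q _ => ?_
  ring

theorem Bf_addr {ι : Type} [Fintype ι] (K : ι → ι → ℂ) (a b b' : ι → ℂ) :
    Bf K a (fun q => b q + b' q) = Bf K a b + Bf K a b' := by
  unfold Bf
  rw [← Finset.sum_add_distrib]
  refine Finset.sum_congr rfl fun p _ => ?_
  rw [← Finset.sum_add_distrib]
  refine Finset.sum_congr rfl fun q _ => ?_
  rw [map_add]
  ring

theorem Bf_addK {ι : Type} [Fintype ι] (K K' : ι → ι → ℂ) (a b : ι → ℂ) :
    Bf (fun p q => K p q + K' p q) a b = Bf K a b + Bf K' a b := by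
  unfold Bf
  rw [← Finset.sum_add_distrib]
  refine Finset.sum_congr rfl fun p _ => ?_
  rw [← Finset.sum_add_distrib]
  refine Finset.sum_congr rfl fun q _ => ?_
  ring

theorem B_sum_sel {m : ℕ} {Y : Type} [Fintype Y] {M : Type} [AddCommMonoid M] (t : Bool → Fin m)
    (g : (Bool × Fin m) × Y → M) (hg : ∀ p, p.1.2 ≠ t p.1.1 → g p = 0) :
    ∑ p, g p = ∑ y, g ((true, t true), y) + ∑ y, g ((false, t false), y) := by
  rw [Fintype.sum_prod_type, Fintype.sum_prod_type, Fintype.sum_bool]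
  congr 1
  · rw [Finset.sum_eq_single (t true)]
    · intro s _ hs
      exact Finset.sum_eq_zero fun y _ => hg _ hs
    · intro h; exact absurd (Finset.mem_univ _) h
  · rw [Finset.sum_eq_single (t false)]
    · intro s _ hs
      exact Finset.sum_eq_zero fun y _ => hg _ hs
    · intro h; exact absurd (Finset.mem_univ _) h

theorem B_choose {m : ℕ} (hm : 0 < m) {Y : Type} (R : Y → Y → Prop)
    (a b : (Bool × Fin m) × Y → ℂ) (hab : ∀ p q, b p ≠ 0 → a q ≠ 0 → ¬ nextR R p q) :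
    ∃ t : Bool → Fin m, (∀ α s y, a ((α, s), y) ≠ 0 → s ≤ t α) ∧
      (∀ α s y, b ((α, s), y) ≠ 0 → t α ≤ s) := by
  classical
  have h : ∀ α : Bool, ∃ tα : Fin m, (∀ s y, a ((α, s), y) ≠ 0 → s ≤ tα) ∧
      (∀ s y, b ((α, s), y) ≠ 0 → tα ≤ s) := by
    intro α
    by_cases hne : (Finset.univ.filter (fun s : Fin m => ∃ y, a ((α, s), y) ≠ 0)).Nonempty
    · refine ⟨(Finset.univ.filter (fun s : Fin m => ∃ y, a ((α, s), y) ≠ 0)).max' hne, ?_, ?_⟩
      · intro s y hs
        apply Finset.le_max'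
        rw [Finset.mem_filter]
        exact ⟨Finset.mem_univ _, y, hs⟩
      · intro s y hs
        have hmem := Finset.max'_mem _ hne
        rw [Finset.mem_filter] at hmem
        obtain ⟨_, y', hy'⟩ := hmem
        by_contra hcon
        push Not at hcon
        exact hab ((α, s), y) _ hs hy' ⟨rfl, Or.inl hcon⟩
    · refine ⟨⟨0, hm⟩, ?_, ?_⟩
      · intro s y hs
        exfalso
        apply hne
        exact ⟨s, by rw [Finset.mem_filter]; exact ⟨Finset.mem_univ _, y, hs⟩⟩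
      · intro s y _
        show 0 ≤ s.val
        exact Nat.zero_le _
  choose t ht using h
  exact ⟨t, fun α => (ht α).1, fun α => (ht α).2⟩

/-- selected part of a family -/
def Bsel {m : ℕ} {Y : Type} (t : Bool → Fin m) (a : (Bool × Fin m) × Y → ℂ)
    (p : (Bool × Fin m) × Y) : ℂ := if p.1.2 = t p.1.1 then a p else 0

/-- the other part of a family -/
def Bcsel {m : ℕ} {Y : Type} (t : Bool → Fin m) (a : (Bool × Fin m) × Y → ℂ)
    (p : (Bool × Fin m) × Y) : ℂ := if p.1.2 = t p.1.1 then 0 else a p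

theorem B_split {m : ℕ} {Y : Type} (t : Bool → Fin m) (a : (Bool × Fin m) × Y → ℂ) :
    a = fun p => Bsel t a p + Bcsel t a p := by
  funext p
  unfold Bsel Bcsel
  split_ifs <;> simp

theorem B_split_sq {m : ℕ} {Y : Type} [Fintype Y] (t : Bool → Fin m)
    (a : (Bool × Fin m) × Y → ℂ) :
    ∑ q, ‖a q‖ ^ 2 = BN (Bsel t a) ^ 2 + BN (Bcsel t a) ^ 2 := by
  rw [BN_sq, BN_sq, ← Finset.sum_add_distrib]
  refine Finset.sum_congr rfl fun p _ => ?_
  unfold Bsel Bcsel
  split_ifs <;> simp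

theorem B_sel_sq {m : ℕ} {Y : Type} [Fintype Y] (t : Bool → Fin m)
    (a : (Bool × Fin m) × Y → ℂ) :
    BN (Bsel t a) ^ 2 = BN (fun y => a ((true, t true), y)) ^ 2
      + BN (fun y => a ((false, t false), y)) ^ 2 := by
  rw [BN_sq, BN_sq, BN_sq, B_sum_sel t]
  · unfold Bsel
    simp
  · intro p hp
    unfold Bsel
    rw [if_neg hp]
    simp

/- ================= TARGET ================= -/
/-- B: the recursive bound -/
theorem step_bound {m : ℕ} (hm : 0 < m) (U : Fin m → Fin m → ℝ) (ε : ℝ) (hε : 0 ≤ ε)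
    (h1 : ∀ t t', ∑ s, U t s * U t' s = if t = t' then 1 else 0)
    (h2 : ∀ s s', ∑ t, U t s * U t s' = if s = s' then 1 else 0)
    (h3 : ∀ t s, |U t s| ≤ ε)
    {Y : Type} [Fintype Y] [DecidableEq Y] (R : Y → Y → Prop) (S : Y → Y → ℝ) (β : ℝ)
    (hβ : 0 ≤ β)
    (hS : ∀ a b : Y → ℂ, (∀ p q, b p ≠ 0 → a q ≠ 0 → ¬ R p q) →
      ‖∑ p, ∑ q, (S p q : ℂ) * a q * conj (b p)‖ ^ 2 ≤
        β ^ 2 * ((∑ q, ‖a q‖ ^ 2) * ∑ p, ‖b p‖ ^ 2))
    (a b : (Bool × Fin m) × Y → ℂ) (hab : ∀ p q, b p ≠ 0 → a q ≠ 0 → ¬ nextR R p q) :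
    ‖∑ p, ∑ q, (nextS U S p q : ℂ) * a q * conj (b p)‖ ^ 2 ≤
        ((β + ε) ^ 2 + 3) * ((∑ q, ‖a q‖ ^ 2) * ∑ p, ‖b p‖ ^ 2) := by
  obtain ⟨t, hta, htb⟩ := B_choose hm R a b hab
  set K1 : ((Bool × Fin m) × Y) → ((Bool × Fin m) × Y) → ℂ :=
    fun p q => ((if p.1 = q.1 then S p.2 q.2 else 0 : ℝ) : ℂ) with hK1
  set K2 : ((Bool × Fin m) × Y) → ((Bool × Fin m) × Y) → ℂ :=
    fun p q => ((J U p.1 q.1 * (if p.2 = q.2 then 1 else 0) : ℝ) : ℂ) with hK2
  have hflip : ∀ x z : (Bool × Fin m) × Y → ℂ, ‖Bf K2 x z‖ ≤ BN x * BN z := by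
    intro x z
    have h := flip_contr U h1 h2 x z
    rw [← BN_sq, ← BN_sq, ← mul_pow] at h
    exact (pow_le_pow_iff_left₀ (norm_nonneg _) (mul_nonneg (BN_nonneg _) (BN_nonneg _))
      two_ne_zero).1 h
  have htot : ∑ p, ∑ q, (nextS U S p q : ℂ) * a q * conj (b p) = Bf K1 a b + Bf K2 a b := by
    rw [← Bf_addK]
    unfold Bf
    refine Finset.sum_congr rfl fun p _ => Finset.sum_congr rfl fun q _ => ?_
    rw [hK1, hK2]
    unfold nextS
    push_cast
    ring
  set aT : Y → ℂ := fun y => a ((true, t true), y) with haT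
  set aF : Y → ℂ := fun y => a ((false, t false), y) with haF
  set bT : Y → ℂ := fun y => b ((true, t true), y) with hbT
  set bF : Y → ℂ := fun y => b ((false, t false), y) with hbF
  -- the diagonal part
  have hone : ∀ α : Bool, ‖∑ y, ∑ y', (S y y' : ℂ) * a ((α, t α), y') * conj (b ((α, t α), y))‖
      ≤ β * (BN (fun y => a ((α, t α), y)) * BN (fun y => b ((α, t α), y))) := by
    intro α
    have h := hS (fun y => a ((α, t α), y)) (fun y => b ((α, t α), y)) (by
      intro y y' hy hy' hR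
      exact hab _ _ hy hy' ⟨rfl, Or.inr ⟨rfl, hR⟩⟩)
    rw [← BN_sq, ← BN_sq, ← mul_pow, ← mul_pow] at h
    exact (pow_le_pow_iff_left₀ (norm_nonneg _) (mul_nonneg hβ
      (mul_nonneg (BN_nonneg _) (BN_nonneg _))) two_ne_zero).1 h
  have hI : Bf K1 a b = (∑ y, ∑ y', (S y y' : ℂ) * aT y' * conj (bT y))
      + ∑ y, ∑ y', (S y y' : ℂ) * aF y' * conj (bF y) := by
    unfold Bf
    rw [B_sum_sel t]
    · have hin : ∀ α : Bool, ∀ y, ∑ q : (Bool × Fin m) × Y,
          K1 ((α, t α), y) q * a q * conj (b ((α, t α), y))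
          = ∑ y', (S y y' : ℂ) * a ((α, t α), y') * conj (b ((α, t α), y)) := by
        intro α y
        rw [Fintype.sum_prod_type, Finset.sum_eq_single (α, t α)]
        · refine Finset.sum_congr rfl fun y' _ => ?_
          rw [hK1]
          simp
        · intro x _ hx
          refine Finset.sum_eq_zero fun y' _ => ?_
          rw [hK1]
          simp only
          rw [if_neg (Ne.symm hx)]
          simp
        · intro h; exact absurd (Finset.mem_univ _) h
      congr 1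
      · exact Finset.sum_congr rfl fun y _ => hin true y
      · exact Finset.sum_congr rfl fun y _ => hin false y
    · rintro ⟨⟨α, s⟩, y⟩ hp
      refine Finset.sum_eq_zero ?_
      rintro ⟨⟨γ, s'⟩, y'⟩ _
      by_cases hb0 : b ((α, s), y) = 0
      · rw [hb0]; simp
      by_cases ha0 : a ((γ, s'), y') = 0
      · rw [ha0]; simp
      have hne : ¬ ((α, s) = (γ, s')) := by
        intro heq
        have e1 : α = γ := congrArg Prod.fst heq
        have e2 : s = s' := congrArg Prod.snd heq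
        subst e1 e2
        exact hp (le_antisymm (hta _ _ _ ha0) (htb _ _ _ hb0))
      rw [hK1]
      simp only
      rw [if_neg hne]
      simp
  have hIn : ‖Bf K1 a b‖ ≤ β * (BN (Bsel t a) * BN (Bsel t b)) := by
    rw [hI]
    refine (norm_add_le _ _).trans ((add_le_add (hone true) (hone false)).trans ?_)
    rw [← mul_add]
    apply mul_le_mul_of_nonneg_left _ hβ
    exact B_cs2 (BN_nonneg _) (BN_nonneg _) (BN_nonneg _) (BN_nonneg _) (BN_nonneg _)
      (BN_nonneg _) (B_sel_sq t a) (B_sel_sq t b)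
  -- the selected part of the flip
  have hII : Bf K2 (Bsel t a) (Bsel t b) = (U (t false) (t true) : ℂ) *
      ((∑ y, aF y * conj (bT y)) + ∑ y, aT y * conj (bF y)) := by
    unfold Bf
    rw [B_sum_sel t]
    · have hin : ∀ p, ∑ q : (Bool × Fin m) × Y, K2 p q * Bsel t a q * conj (Bsel t b p)
          = (∑ y', K2 p ((true, t true), y') * a ((true, t true), y') * conj (Bsel t b p))
          + ∑ y', K2 p ((false, t false), y') * a ((false, t false), y')
            * conj (Bsel t b p) := by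
        intro p
        rw [B_sum_sel t]
        · unfold Bsel
          simp
        · intro q hq
          have : Bsel t a q = 0 := by unfold Bsel; rw [if_neg hq]
          rw [this]; simp
      simp_rw [hin]
      have hbsel : ∀ α y, Bsel t b ((α, t α), y) = b ((α, t α), y) := by
        intro α y
        unfold Bsel
        simp
      simp_rw [hbsel]
      have k1 : ∀ y y', K2 ((true, t true), y) ((true, t true), y') = 0 := by
        intro y y'; rw [hK2]; simp [J]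
      have k2 : ∀ y y', K2 ((false, t false), y) ((false, t false), y') = 0 := by
        intro y y'; rw [hK2]; simp [J]
      have k3 : ∀ y y', K2 ((true, t true), y) ((false, t false), y')
          = if y = y' then (U (t false) (t true) : ℂ) else 0 := by
        intro y y'; rw [hK2]; by_cases hyy : y = y' <;> simp [J, hyy]
      have k4 : ∀ y y', K2 ((false, t false), y) ((true, t true), y')
          = if y = y' then (U (t false) (t true) : ℂ) else 0 := by
        intro y y'; rw [hK2]; by_cases hyy : y = y' <;> simp [J, hyy]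
      simp_rw [k1, k2, k3, k4]
      simp only [zero_mul, ite_mul, Finset.sum_const_zero, zero_add, add_zero,
        Finset.sum_ite_eq, Finset.mem_univ, if_true]
      rw [mul_add, Finset.mul_sum, Finset.mul_sum]
      congr 1
      · refine Finset.sum_congr rfl fun y _ => ?_
        rw [mul_assoc]
      · refine Finset.sum_congr rfl fun y _ => ?_
        rw [mul_assoc]
    · intro p hp
      have : Bsel t b p = 0 := by unfold Bsel; rw [if_neg hp]
      rw [this]; simp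
  have hIIn : ‖Bf K2 (Bsel t a) (Bsel t b)‖ ≤ ε * (BN (Bsel t a) * BN (Bsel t b)) := by
    rw [hII, norm_mul]
    have hU : ‖(U (t false) (t true) : ℂ)‖ ≤ ε := by
      rw [Complex.norm_real, Real.norm_eq_abs]
      exact h3 _ _
    apply mul_le_mul hU _ (norm_nonneg _) hε
    refine (norm_add_le _ _).trans ((add_le_add (B_CS aF bT) (B_CS aT bF)).trans ?_)
    have e1 := B_sel_sq t a
    have e2 := B_sel_sq t b
    have := B_cs2 (x1 := BN aF) (x2 := BN aT) (y1 := BN bT) (y2 := BN bF)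
      (BN_nonneg _) (BN_nonneg _) (BN_nonneg _) (BN_nonneg _) (BN_nonneg (Bsel t a))
      (BN_nonneg (Bsel t b)) (by rw [e1, add_comm]) e2
    exact this
  have hsplit : Bf K2 a b = Bf K2 (Bsel t a) (Bsel t b) + Bf K2 (Bsel t a) (Bcsel t b)
      + (Bf K2 (Bcsel t a) (Bsel t b) + Bf K2 (Bcsel t a) (Bcsel t b)) := by
    rw [← Bf_addr, ← Bf_addr, ← Bf_addl, ← B_split, ← B_split]
  rw [htot, B_split_sq t a, B_split_sq t b]
  apply B_cs4 (norm_nonneg _)
  have n1 := hflip (Bsel t a) (Bcsel t b)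
  have n2 := hflip (Bcsel t a) (Bsel t b)
  have n3 := hflip (Bcsel t a) (Bcsel t b)
  rw [hsplit]
  have m1 := norm_add_le (Bf K1 a b) (Bf K2 (Bsel t a) (Bsel t b) + Bf K2 (Bsel t a) (Bcsel t b)
      + (Bf K2 (Bcsel t a) (Bsel t b) + Bf K2 (Bcsel t a) (Bcsel t b)))
  have m2 := norm_add_le (Bf K2 (Bsel t a) (Bsel t b) + Bf K2 (Bsel t a) (Bcsel t b))
      (Bf K2 (Bcsel t a) (Bsel t b) + Bf K2 (Bcsel t a) (Bcsel t b))
  have m3 := norm_add_le (Bf K2 (Bsel t a) (Bsel t b)) (Bf K2 (Bsel t a) (Bcsel t b))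
  have m4 := norm_add_le (Bf K2 (Bcsel t a) (Bsel t b)) (Bf K2 (Bcsel t a) (Bcsel t b))
  have m5 : (β + ε) * (BN (Bsel t a) * BN (Bsel t b)) = β * (BN (Bsel t a) * BN (Bsel t b))
      + ε * (BN (Bsel t a) * BN (Bsel t b)) := by ring
  linarith

end DC
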