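import Pool.Agent.Helper360.Dist.Base
import Pool.Agent.Helper360.Dist.Defs
import Pool.Agent.Helper360.Dist.Hadamard
import Pool.Agent.Helper360.Dist.Step
set_option maxHeartbeats 4000000

open scoped InnerProductSpace Topology ComplexConjugate
open MeasureTheory

namespace DC

theorem stage_succ_radix {n a b x y : ℕ} (hx : x < n) (hy : y < n) :
    a * n + x < b * n + y ↔ a < b ∨ (a = b ∧ x < y) := by
  rcases lt_trichotomy a b with h | h | h
  · have h1 : (a + 1) * n ≤ b * n := Nat.mul_le_mul_right _ h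
    have h2 : (a + 1) * n = a * n + n := by ring
    constructor
    · intro _; exact Or.inl h
    · intro _; omega
  · subst h
    constructor
    · intro h; exact Or.inr ⟨rfl, by omega⟩
    · rintro (h | h)
      · omega
      · omega
  · have h1 : (b + 1) * n ≤ a * n := Nat.mul_le_mul_right _ h
    have h2 : (b + 1) * n = b * n + n := by ring
    constructor
    · intro _; omega
    · rintro (h' | h')
      · omega
      · omega

theorem stage_succ_radix_eq {n a b x y : ℕ} (hx : x < n) (hy : y < n)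
    (h : a * n + x = b * n + y) : a = b ∧ x = y := by
  have h1 : ¬ (a * n + x < b * n + y) := by omega
  have h2 : ¬ (b * n + y < a * n + x) := by omega
  rw [stage_succ_radix hx hy] at h1
  rw [stage_succ_radix hy hx] at h2
  push Not at h1 h2
  have h3 : a = b := le_antisymm h2.1 h1.1
  refine ⟨h3, ?_⟩
  subst h3
  omega

theorem stage_succ_prod {A Y : Type} [Fintype A] [Fintype Y] (f : A → ℝ) (g : Y → ℝ) :
    ∑ p : A × Y, f p.1 * g p.2 = (∑ x, f x) * (∑ y, g y) := by
  rw [Fintype.sum_prod_type, Finset.sum_mul_sum]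

theorem stage_succ_sum {A Y : Type} [Fintype A] [Fintype Y] [DecidableEq A] [DecidableEq Y]
    (v : A → ℝ) (w : Y → ℝ) (S : Y → Y → ℝ) (K : A → A → ℝ) :
    ∑ p : A × Y, ∑ q : A × Y, v p.1 * w p.2 *
      ((if p.1 = q.1 then S p.2 q.2 else 0) + K p.1 q.1 * (if p.2 = q.2 then 1 else 0)) *
        (v q.1 * w q.2) =
      (∑ x, v x ^ 2) * (∑ y, ∑ y', w y * S y y' * w y') +
        (∑ x, ∑ x', v x * K x x' * v x') * (∑ y, w y ^ 2) := by
  have e1 : ∀ p : A × Y, ∑ q : A × Y, v p.1 * w p.2 *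
      ((if p.1 = q.1 then S p.2 q.2 else 0) + K p.1 q.1 * (if p.2 = q.2 then 1 else 0)) *
        (v q.1 * w q.2) = (v p.1 ^ 2) * (∑ y', w p.2 * S p.2 y' * w y') +
          (∑ x', v p.1 * K p.1 x' * v x') * w p.2 ^ 2 := by
    rintro ⟨x, y⟩
    rw [Fintype.sum_prod_type]
    have e2 : ∀ x' : A, ∑ y', v x * w y * ((if x = x' then S y y' else 0) +
        K x x' * (if y = y' then 1 else 0)) * (v x' * w y') =
        (if x = x' then v x ^ 2 * (∑ y', w y * S y y' * w y') else 0) +
          v x * K x x' * v x' * w y ^ 2 := by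
      intro x'
      have e3 : ∀ y', v x * w y * ((if x = x' then S y y' else 0) +
          K x x' * (if y = y' then 1 else 0)) * (v x' * w y') =
          (if x = x' then v x ^ 2 * (w y * S y y' * w y') else 0) +
            (if y = y' then v x * K x x' * v x' * w y ^ 2 else 0) := by
        intro y'
        by_cases hx : x = x' <;> by_cases hy : y = y'
        · subst hx; subst hy; simp only [if_true]; ring
        · subst hx; simp only [if_true, if_neg hy]; ring
        · subst hy; simp only [if_true, if_neg hx]; ring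
        · simp only [if_neg hx, if_neg hy]; ring
      rw [Finset.sum_congr rfl fun y' _ => e3 y', Finset.sum_add_distrib]
      rw [Finset.sum_ite_eq, if_pos (Finset.mem_univ _)]
      congr 1
      split_ifs
      · rw [Finset.mul_sum]
      · rw [Finset.sum_const_zero]
    rw [Finset.sum_congr rfl fun x' _ => e2 x', Finset.sum_add_distrib, Finset.sum_ite_eq,
      if_pos (Finset.mem_univ _), Finset.sum_mul]
  rw [Finset.sum_congr rfl fun p _ => e1 p, Finset.sum_add_distrib, Fintype.sum_prod_type,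
    Fintype.sum_prod_type, Finset.sum_mul_sum, Finset.sum_mul_sum]

/-- the new vectors -/
noncomputable def stage_succ_v {m : ℕ} (U : Fin m → Fin m → ℝ) (s : Fin m)
    (x : Bool × Fin m) : ℝ :=
  if x.1 = false then (if x.2 = s then 1 / Real.sqrt 2 else 0) else U s x.2 / Real.sqrt 2

theorem stage_succ_v_f {m : ℕ} (U : Fin m → Fin m → ℝ) (s t : Fin m) :
    stage_succ_v U s (false, t) = if t = s then 1 / Real.sqrt 2 else 0 := by
  simp [stage_succ_v]

theorem stage_succ_v_t {m : ℕ} (U : Fin m → Fin m → ℝ) (s t : Fin m) :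
    stage_succ_v U s (true, t) = U s t / Real.sqrt 2 := by
  simp [stage_succ_v]

theorem stage_succ_sq2 : (1 / Real.sqrt 2) * (1 / Real.sqrt 2) = 1 / 2 := by
  rw [div_mul_div_comm, Real.mul_self_sqrt (by norm_num), one_mul]

theorem stage_succ_v_norm {m : ℕ} (U : Fin m → Fin m → ℝ)
    (h1 : ∀ t t', ∑ s, U t s * U t' s = if t = t' then 1 else 0) (s : Fin m) :
    ∑ x, stage_succ_v U s x ^ 2 = 1 := by
  rw [Fintype.sum_prod_type, Fintype.sum_bool]
  simp only [stage_succ_v_f, stage_succ_v_t]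
  have e1 : ∑ t, (U s t / Real.sqrt 2) ^ 2 = 1 / 2 := by
    have e2 : ∀ t, (U s t / Real.sqrt 2) ^ 2 = (U s t * U s t) * (1 / 2) := by
      intro t
      rw [← stage_succ_sq2]
      ring
    rw [Finset.sum_congr rfl fun t _ => e2 t, ← Finset.sum_mul, h1, if_pos rfl, one_mul]
  have e3 : ∑ t, (if t = s then 1 / Real.sqrt 2 else 0) ^ 2 = (1 / 2 : ℝ) := by
    have e2 : ∀ t, (if t = s then 1 / Real.sqrt 2 else 0) ^ 2 = if t = s then (1 / 2 : ℝ) else 0 := by
      intro t
      split_ifs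
      · rw [← stage_succ_sq2]; ring
      · ring
    rw [Finset.sum_congr rfl fun t _ => e2 t, Finset.sum_ite_eq', if_pos (Finset.mem_univ _)]
  rw [e1, e3]
  norm_num

theorem stage_succ_v_J {m : ℕ} (U : Fin m → Fin m → ℝ)
    (h1 : ∀ t t', ∑ s, U t s * U t' s = if t = t' then 1 else 0) (s : Fin m) :
    ∑ x, ∑ x', stage_succ_v U s x * J U x x' * stage_succ_v U s x' = 1 := by
  simp only [Fintype.sum_prod_type, Fintype.sum_bool]
  have jtt : ∀ t t' : Fin m, J U (true, t) (true, t') = 0 := by intro t t'; simp [J]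
  have jff : ∀ t t' : Fin m, J U (false, t) (false, t') = 0 := by intro t t'; simp [J]
  have jft : ∀ t t' : Fin m, J U (false, t) (true, t') = U t t' := by intro t t'; simp [J]
  have jtf : ∀ t t' : Fin m, J U (true, t) (false, t') = U t' t := by intro t t'; simp [J]
  simp only [jtt, jff, jft, jtf, stage_succ_v_f, stage_succ_v_t, mul_zero, zero_mul,
    Finset.sum_const_zero, zero_add, add_zero]
  have e1 : ∀ x : Fin m, ∑ x', U s x / Real.sqrt 2 * U x' x *
      (if x' = s then 1 / Real.sqrt 2 else 0) = (U s x * U s x) * (1 / 2) := by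
    intro x
    have e2 : ∀ x', U s x / Real.sqrt 2 * U x' x * (if x' = s then 1 / Real.sqrt 2 else 0) =
        if x' = s then (U s x * U s x) * (1 / 2) else 0 := by
      intro x'
      split_ifs with h
      · subst h
        rw [← stage_succ_sq2]
        ring
      · ring
    rw [Finset.sum_congr rfl fun x' _ => e2 x', Finset.sum_ite_eq', if_pos (Finset.mem_univ _)]
  have e3 : ∀ x : Fin m, ∑ x', (if x = s then 1 / Real.sqrt 2 else 0) * U x x' *
      (U s x' / Real.sqrt 2) = if x = s then 1 / 2 else 0 := by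
    intro x
    split_ifs with h
    · subst h
      have e4 : ∀ x', 1 / Real.sqrt 2 * U x x' * (U x x' / Real.sqrt 2) =
          (U x x' * U x x') * (1 / 2) := by
        intro x'
        rw [← stage_succ_sq2]
        ring
      rw [Finset.sum_congr rfl fun x' _ => e4 x', ← Finset.sum_mul, h1, if_pos rfl, one_mul]
    · simp
  rw [Finset.sum_congr rfl fun x _ => e1 x, Finset.sum_congr rfl fun x _ => e3 x,
    ← Finset.sum_mul, h1, if_pos rfl, Finset.sum_ite_eq', if_pos (Finset.mem_univ _)]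
  norm_num

theorem stage_succ_v_orth {m : ℕ} (U : Fin m → Fin m → ℝ)
    (h2 : ∀ s s', ∑ t, U t s * U t s' = if s = s' then 1 else 0) (α : Bool) {t t' : Fin m}
    (ht : t ≠ t') : ∑ s, stage_succ_v U s (α, t) * stage_succ_v U s (α, t') = 0 := by
  cases α
  · simp only [stage_succ_v_f]
    apply Finset.sum_eq_zero
    intro s _
    by_cases h : t = s
    · have h' : t' ≠ s := fun h' => ht (h.trans h'.symm)
      rw [if_neg h', mul_zero]
    · rw [if_neg h, zero_mul]
  · simp only [stage_succ_v_t]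
    have e : ∀ s, U s t / Real.sqrt 2 * (U s t' / Real.sqrt 2) = (U s t * U s t') * (1 / 2) := by
      intro s
      rw [← stage_succ_sq2]
      ring
    rw [Finset.sum_congr rfl fun s _ => e s, ← Finset.sum_mul, h2, if_neg ht, zero_mul]

/- ================= TARGET ================= -/
/-- C: induction step -/
theorem stage_succ (r : ℕ) (h : Stage r) : Stage (r + 1) := by
  obtain ⟨Y, κ, fY, dY, fκ, n, i, j, S, w, hκ, hin, hjn, hi, hj, hB, hw1, hw2, hw3⟩ := h
  obtain ⟨β, hβ⟩ : ∃ β, β = Real.sqrt (4 * r + 1) := ⟨_, rfl⟩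
  have hβ0 : 0 ≤ β := by rw [hβ]; exact Real.sqrt_nonneg _
  have hβ2 : β ^ 2 = 4 * r + 1 := by rw [hβ]; exact Real.sq_sqrt (by positivity)
  obtain ⟨ε, hε⟩ : ∃ ε, ε = 1 / (2 * β + 1) := ⟨_, rfl⟩
  have hε0 : 0 < ε := by rw [hε]; positivity
  have hε1 : 2 * β * ε + ε ^ 2 ≤ 1 := by
    have h1 : ε * (2 * β + 1) = 1 := by
      rw [hε]
      have : 2 * β + 1 ≠ 0 := by positivity
      field_simp
    have h2 : ε ≤ 1 := by nlinarith [mul_nonneg hβ0 hε0.le]
    nlinarith
  obtain ⟨m, U, hm, hU1, hU2, hU3⟩ := hadamard ε hε0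
  obtain ⟨A, hA⟩ : ∃ A : Bool × Fin m → ℕ, ∀ x, A x = (if x.1 = true then m else 0) + x.2 :=
    ⟨_, fun _ => rfl⟩
  obtain ⟨B, hBd⟩ : ∃ B : Bool × Fin m → ℕ, ∀ x, B x = (if x.1 = true then 0 else m) + x.2 :=
    ⟨_, fun _ => rfl⟩
  have hAlt : ∀ x, A x + 1 ≤ 2 * m := by
    intro x
    rw [hA]
    have := x.2.2
    split_ifs <;> omega
  have hBlt : ∀ x, B x + 1 ≤ 2 * m := by
    intro x
    rw [hBd]
    have := x.2.2
    split_ifs <;> omega
  have hAinj : ∀ x x', A x = A x' → x = x' := by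
    rintro ⟨α, t⟩ ⟨α', t'⟩ h
    rw [hA, hA] at h
    have h1 := t.2
    have h2 := t'.2
    cases α <;> cases α' <;> simp at h
    · rw [Fin.ext h]
    · omega
    · omega
    · rw [Fin.ext h]
  have hBinj : ∀ x x', B x = B x' → x = x' := by
    rintro ⟨α, t⟩ ⟨α', t'⟩ h
    rw [hBd, hBd] at h
    have h1 := t.2
    have h2 := t'.2
    cases α <;> cases α' <;> simp at h
    · rw [Fin.ext h]
    · omega
    · omega
    · rw [Fin.ext h]
  have hR : ∀ p q : (Bool × Fin m) × Y, (A p.1 * n + i p.2 < A q.1 * n + i q.2 ∧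
      B p.1 * n + j p.2 < B q.1 * n + j q.2) ↔
      nextR (fun p q => i p < i q ∧ j p < j q) p q := by
    rintro ⟨⟨α, t⟩, y⟩ ⟨⟨α', t'⟩, y'⟩
    rw [stage_succ_radix (hin _) (hin _), stage_succ_radix (hjn _) (hjn _)]
    unfold nextR
    simp only [hA, hBd]
    have h1 := t.2
    have h2 := t'.2
    have h3 : (t : ℕ) = t' ↔ t = t' := Fin.ext_iff.symm
    have h4 : (t : ℕ) < t' ↔ t < t' := Fin.lt_def.symm
    cases α <;> cases α' <;> simp only [Bool.false_eq_true, if_false, if_true, reduceCtorEq,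
      false_and, true_and, iff_false] <;> (try rw [← h3, ← h4]) <;> omega
  refine ⟨(Bool × Fin m) × Y, Fin m × κ, inferInstance, inferInstance, inferInstance, 2 * m * n,
    fun p => A p.1 * n + i p.2, fun p => B p.1 * n + j p.2, nextS U S,
    fun sk p => stage_succ_v U sk.1 p.1 * w sk.2 p.2, ?_, ?_, ?_, ?_, ?_, ?_, ?_, ?_, ?_⟩
  · have : Nonempty (Fin m) := ⟨⟨0, hm⟩⟩
    infer_instance
  · intro p
    have h1 := hin p.2
    have h2 : (A p.1 + 1) * n ≤ 2 * m * n := Nat.mul_le_mul_right _ (hAlt _)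
    have h3 : (A p.1 + 1) * n = A p.1 * n + n := by ring
    show A p.1 * n + i p.2 < 2 * m * n
    omega
  · intro p
    have h1 := hjn p.2
    have h2 : (B p.1 + 1) * n ≤ 2 * m * n := Nat.mul_le_mul_right _ (hBlt _)
    have h3 : (B p.1 + 1) * n = B p.1 * n + n := by ring
    show B p.1 * n + j p.2 < 2 * m * n
    omega
  · rintro ⟨x, y⟩ ⟨x', y'⟩ h
    obtain ⟨h1, h2⟩ := stage_succ_radix_eq (hin _) (hin _) h
    exact Prod.ext (hAinj _ _ h1) (hi h2)
  · rintro ⟨x, y⟩ ⟨x', y'⟩ h
    obtain ⟨h1, h2⟩ := stage_succ_radix_eq (hjn _) (hjn _) h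
    exact Prod.ext (hBinj _ _ h1) (hj h2)
  · intro a b hab
    have h1 := step_bound hm U ε hε0.le hU1 hU2 hU3 (fun p q => i p < i q ∧ j p < j q) S β hβ0
      (fun a b hab => by rw [hβ2]; exact hB a b hab) a b
      (fun p q hp hq hn => hab p q hp hq ((hR p q).2 hn))
    refine h1.trans (mul_le_mul_of_nonneg_right ?_ ?_)
    · push_cast
      nlinarith
    · exact mul_nonneg (Finset.sum_nonneg fun _ _ => by positivity)
        (Finset.sum_nonneg fun _ _ => by positivity)
  · rintro ⟨s, k⟩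
    have e1 : ∀ p : (Bool × Fin m) × Y, (stage_succ_v U s p.1 * w k p.2) ^ 2 =
        stage_succ_v U s p.1 ^ 2 * w k p.2 ^ 2 := fun p => by ring
    show ∑ p : (Bool × Fin m) × Y, (stage_succ_v U s p.1 * w k p.2) ^ 2 = 1
    rw [Finset.sum_congr rfl fun p _ => e1 p,
      stage_succ_prod (fun x => stage_succ_v U s x ^ 2) (fun y => w k y ^ 2),
      stage_succ_v_norm U hU1, hw1, one_mul]
  · intro p q hp hq
    have hn := (hR p q).1 ⟨hp, hq⟩
    obtain ⟨⟨α, t⟩, y⟩ := p
    obtain ⟨⟨α', t'⟩, y'⟩ := q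
    obtain ⟨h1, h2⟩ := hn
    have h1' : α = α' := h1
    subst h1'
    show ∑ sk : Fin m × κ, stage_succ_v U sk.1 (α, t) * w sk.2 y *
      (stage_succ_v U sk.1 (α, t') * w sk.2 y') = 0
    have e1 : ∀ sk : Fin m × κ, stage_succ_v U sk.1 (α, t) * w sk.2 y *
      (stage_succ_v U sk.1 (α, t') * w sk.2 y') =
      (stage_succ_v U sk.1 (α, t) * stage_succ_v U sk.1 (α, t')) * (w sk.2 y * w sk.2 y') :=
      fun sk => by ring
    rw [Finset.sum_congr rfl fun sk _ => e1 sk,
      stage_succ_prod (fun s => stage_succ_v U s (α, t) * stage_succ_v U s (α, t'))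
        (fun k => w k y * w k y')]
    rcases h2 with h2 | ⟨_, h3, h4⟩
    · have h5 : t ≠ t' := ne_of_lt h2
      rw [stage_succ_v_orth U hU2 α h5, zero_mul]
    · rw [hw2 y y' h3 h4, mul_zero]
  · have e1 : ∀ sk : Fin m × κ, ∑ p : (Bool × Fin m) × Y, ∑ q : (Bool × Fin m) × Y,
        stage_succ_v U sk.1 p.1 * w sk.2 p.2 * nextS U S p q *
          (stage_succ_v U sk.1 q.1 * w sk.2 q.2) =
        (∑ y, ∑ y', w sk.2 y * S y y' * w sk.2 y') + 1 := by
      intro sk
      have e2 := stage_succ_sum (stage_succ_v U sk.1) (w sk.2) S (J U)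
      rw [stage_succ_v_norm U hU1, stage_succ_v_J U hU1, hw1, one_mul, one_mul] at e2
      exact e2
    show ∑ sk : Fin m × κ, ∑ p : (Bool × Fin m) × Y, ∑ q : (Bool × Fin m) × Y,
        stage_succ_v U sk.1 p.1 * w sk.2 p.2 * nextS U S p q *
          (stage_succ_v U sk.1 q.1 * w sk.2 q.2) = _
    rw [Finset.sum_congr rfl fun sk _ => e1 sk, Fintype.sum_prod_type]
    simp only [Finset.sum_add_distrib, hw3]
    simp only [Finset.sum_const, Finset.card_univ, Fintype.card_prod, Fintype.card_fin,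
      nsmul_eq_mul]
    push_cast
    ring

end DC
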