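import Pool.Agent.Helper360.Dist.Base

set_option maxHeartbeats 4000000

open scoped InnerProductSpace Topology ComplexConjugate
open MeasureTheory

namespace DC

/- ================= TARGET ================= -/
/-- C0 -/
theorem stage_zero : Stage 0 := by
  refine ⟨Unit, Unit, inferInstance, inferInstance, inferInstance, 1, fun _ => 0, fun _ => 0,
    fun _ _ => 1, fun _ _ => 1, ⟨()⟩, by simp, by simp, fun _ _ _ => rfl, fun _ _ _ => rfl, ?_, ?_,
    ?_, ?_⟩
  · intro a b _
    simp [mul_pow]
  · simp
  · intro p q h
    exact absurd h (lt_irrefl _)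
  · simp

end DC
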