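import Pool.Agent.Helper360.Dist.Base
import Pool.Agent.Helper360.Dist.StageZero
import Pool.Agent.Helper360.Dist.StageSucc
import Pool.Agent.Helper360.Dist.Bad
set_option maxHeartbeats 4000000

open scoped InnerProductSpace Topology ComplexConjugate
open MeasureTheory

namespace DC

variable {H : Type*} [NormedAddCommGroup H] [InnerProductSpace ℂ H] [CompleteSpace H]

/- ================= TARGET ================= -/
theorem no_constant {E F : ℝ → (H →L[ℂ] H)} (h : TwoNests E F) :
    ¬ HasDistanceConstant (AlgOf (generated (genSet E F))) := by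
  have hs : ∀ r, Stage r := fun r => Nat.rec stage_zero (fun r h => stage_succ r h) r
  rintro ⟨K, hK⟩
  obtain ⟨r, hr⟩ := exists_nat_ge (4 * K ^ 2 + 1)
  obtain ⟨T, hT1, hT2⟩ := exists_bad h r (hs r)
  have h1 := hK T
  have hne : (AlgOf (generated (genSet E F))).Nonempty := ⟨0, fun P _ => by simp⟩
  have h2 : (r + 1 : ℝ) ≤ Metric.infDist T (AlgOf (generated (genSet E F))) := by
    rw [Metric.le_infDist hne]
    intro A hA
    rw [dist_eq_norm]
    exact hT1 A hA
  set s : ℝ := sSup {x : ℝ | ∃ P ∈ LatOf (AlgOf (generated (genSet E F))), x = ‖(1 - P) * T * P‖} with hsdef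
  have hs1 : s ≤ √(4 * r + 1) := by
    apply Real.sSup_le
    · rintro x ⟨P, hP, rfl⟩
      apply Real.le_sqrt_of_sq_le
      exact hT2 P hP
    · positivity
  have hs0 : 0 ≤ s := by
    apply Real.sSup_nonneg
    rintro x ⟨P, hP, rfl⟩
    exact norm_nonneg _
  have h3 : K * s ≤ |K| * √(4 * r + 1) :=
    mul_le_mul (le_abs_self K) hs1 hs0 (abs_nonneg K)
  have h4 : (r + 1 : ℝ) ≤ |K| * √(4 * r + 1) := h2.trans (h1.trans h3)
  have h5 : (r + 1 : ℝ) ^ 2 ≤ K ^ 2 * (4 * r + 1) := by
    have h6 := pow_le_pow_left₀ (by positivity) h4 2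
    rw [mul_pow, sq_abs, Real.sq_sqrt (by positivity)] at h6
    exact h6
  have h7 : K ^ 2 ≤ (r - 1) / 4 := by linarith
  have h8 : (0:ℝ) ≤ r := Nat.cast_nonneg r
  have h9 : K ^ 2 * (4 * r + 1) ≤ (r - 1) / 4 * (4 * r + 1) :=
    mul_le_mul_of_nonneg_right h7 (by positivity)
  nlinarith

end DC
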